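import Pool.Agent.Lib.MP_fc51f7_nt.BV
import Pool.Agent.Lib.MP_fc51f7_nt.Tens

/-! Local estimates, type I sums and the bilinear estimate for arbitrary shifts. -/

set_option autoImplicit false
set_option linter.unusedSectionVars false

namespace Pool.Agent.Lib.MP_fc51f7_nt

open Finset Filter Topology

theorem lt_of_shift {D p : ℕ} (h : D < p) {z : ℤ} (hz : 2 * |z| ≤ D) : 2 * |z| < p :=
  hz.trans_lt (by exact_mod_cast h)

section
variable {ι κ : Type} [Fintype ι] [DecidableEq ι] [Fintype κ] [DecidableEq κ]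

theorem loc_mul_affineG {p : ℕ} {g : κ → ℤ} (hg : Function.Injective g)
    (hg8 : ∀ j, 2 * |g j| < p) (A A' : Finset κ) (m : ℤ) :
    loc p g A m * loc p g A' m = ∏ j, al p A A' j + ∑ j, (if (p : ℤ) ∣ m + g j then 1 else 0) *
      ((be A A' j - al p A A' j) * ∏ l ∈ univ.erase j, al p A A' l) := by
  rw [loc_mul]
  by_cases h : ∃ j, (p : ℤ) ∣ m + g j
  · obtain ⟨j, hj⟩ := h
    have hu : ∀ l, l ≠ j → ¬ (p : ℤ) ∣ m + g l := by
      intro l hl h'
      have h1 : (p : ℤ) ∣ g l - g j := by simpa using dvd_sub h' hj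
      have h2 := Int.le_of_dvd (abs_pos.2 (sub_ne_zero.2 (hg.ne hl))) ((dvd_abs _ _).2 h1)
      have h3 := abs_sub (g l) (g j)
      have := hg8 l; have := hg8 j
      omega
    rw [sum_eq_single j (fun l _ hl => by simp [hu l hl]) (by simp),
      ← mul_prod_erase _ _ (mem_univ j), ← mul_prod_erase _ (al p A A') (mem_univ j),
      prod_congr rfl fun l hl => if_neg (hu l (ne_of_mem_erase hl))]
    simp only [hj, if_true]; ring
  · push Not at h
    simp [h]

theorem sum_loc_mulG {p : ℕ} (h16 : 16 < p) {g : κ → ℤ} (hg : Function.Injective g)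
    (hg8 : ∀ j, 2 * |g j| < p) (A A' : Finset κ) :
    ∑ r ∈ range p, loc p g A r * loc p g A' r = p * ∏ j, al p A A' j +
      ∑ j, (be A A' j - al p A A' j) * ∏ l ∈ univ.erase j, al p A A' l := by
  simp only [loc_mul_affineG hg hg8, sum_add_distrib, sum_const, card_range, nsmul_eq_mul]
  rw [sum_comm]
  simp only [← sum_mul, sum_dvd_one (show 0 < p by omega), one_mul]

theorem avg_approxG {p : ℕ} (h16 : 16 < p) (hκ : Fintype.card κ ≤ 4) {g : κ → ℤ}
    (hg : Function.Injective g) (hg8 : ∀ j, 2 * |g j| < p) (A A' : Finset κ) :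
    |(p : ℝ)⁻¹ * ∑ r ∈ range p, loc p g A r * loc p g A' r - ind p A A'| ≤ 2000 / (p : ℝ) ^ 2 := by
  have hp : (16 : ℝ) < p := by exact_mod_cast h16
  rw [sum_loc_mulG h16 hg hg8, mul_add, ← mul_assoc, inv_mul_cancel₀ (by linarith), one_mul]
  exact (approx_core h16 hκ A A').1.trans (by gcongr; norm_num)

theorem ubar_approxG {p : ℕ} (h16 : 16 < p) (hκ : Fintype.card κ ≤ 4) {g : κ → ℤ}
    (hg : Function.Injective g) (hg8 : ∀ j, g j ≠ 0 ∧ 2 * |g j| < p) (A A' : Finset κ) :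
    |ubar p g A A' - ind p A A'| ≤ 2000 / (p : ℝ) ^ 2 := by
  have hp : (16 : ℝ) < p := by exact_mod_cast h16
  have h0 : loc p g A (0 : ℕ) * loc p g A' (0 : ℕ) = ∏ j, al p A A' j := by
    rw [loc_mul]
    refine prod_congr rfl fun j _ => if_neg fun h => ?_
    have := Int.le_of_dvd (abs_pos.2 (hg8 j).1) ((dvd_abs _ _).2 (by simpa using h))
    have := (hg8 j).2
    omega
  have h1 := sum_loc_mulG h16 hg (fun j => (hg8 j).2) A A'
  rw [range_eq_Ico, sum_eq_sum_Ico_succ_bot (by omega), h0] at h1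
  obtain ⟨h2, h3⟩ := approx_core h16 hκ A A'
  unfold ubar
  set V := ∑ j, (be A A' j - al p A A' j) * ∏ l ∈ univ.erase j, al p A A' l
  set P := ∏ j, al p A A' j
  have h4 : ∑ r ∈ Ico 1 p, loc p g A r * loc p g A' r = (p - 1) * P + V := by
    simp only [zero_add] at h1; linarith
  have h5 : (p : ℝ) - 1 ≠ 0 := by linarith
  have e : ((p : ℝ) - 1)⁻¹ * ((p - 1) * P + V) - ind p A A' =
      (P + (p : ℝ)⁻¹ * V - ind p A A') + V / (p * (p - 1)) := by field_simp; ring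
  rw [h4, e]
  refine (abs_add_le _ _).trans ?_
  have h6 : |V / (p * (p - 1))| ≤ 16 / (p : ℝ) ^ 2 := by
    rw [abs_div, abs_of_pos (show (0 : ℝ) < p * (p - 1) by nlinarith),
      div_le_div_iff₀ (by nlinarith) (by positivity)]
    nlinarith [abs_nonneg V]
  refine (add_le_add h2 h6).trans ?_
  rw [← add_div]; gcongr; norm_num

theorem cond_approxG {p : ℕ} (h16 : 16 < p) {g : κ → ℤ} (hg : Function.Injective g)
    (hg8 : ∀ j, 2 * |g j| < p) {j0 : κ} (hj0 : g j0 = 0) {A A' : Finset κ} (hA : j0 ∉ A)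
    (hA' : j0 ∉ A') : |loc p g A 0 * loc p g A' 0 - ind p A A'| ≤ 2 / p := by
  have hp : (16 : ℝ) < p := by exact_mod_cast h16
  have h0 : 0 ≤ ((p : ℝ) - 1)⁻¹ := inv_nonneg.2 (by linarith)
  have h1 : ((p : ℝ) - 1)⁻¹ ≤ 1 := inv_le_one_of_one_le₀ (by linarith)
  have h2 : ((p : ℝ) - 1)⁻¹ ≤ 2 / p := by
    rw [inv_eq_one_div, div_le_div_iff₀ (by linarith) (by linarith)]; linarith
  have hl : ∀ B : Finset κ, j0 ∉ B → loc p g B 0 = ((p : ℝ) - 1)⁻¹ ^ B.card := by
    intro B hB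
    rw [loc, ← prod_const]
    refine prod_congr rfl fun j hj => if_neg fun h => ?_
    have hne : g j ≠ 0 := fun h' => hB (hg (h'.trans hj0.symm) ▸ hj)
    have := Int.le_of_dvd (abs_pos.2 hne) ((dvd_abs _ _).2 (by simpa using h))
    have := hg8 j
    omega
  have hb : ∀ n, n ≠ 0 → ((p : ℝ) - 1)⁻¹ ^ n ≤ 2 / p := fun n hn =>
    (pow_le_of_le_one h0 h1 hn).trans h2
  rw [hl A hA, hl A' hA', ← pow_add, ind]
  by_cases he : A.card + A'.card = 0
  · have h3 : A = ∅ := card_eq_zero.1 (by omega)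
    have h4 : A' = ∅ := card_eq_zero.1 (by omega)
    subst h3 h4; simp; positivity
  · have h3 := hb _ he
    have h4 := pow_nonneg h0 (A.card + A'.card)
    split_ifs with h
    · subst h
      have h5 := hb A.card (by omega)
      have h6 := pow_nonneg h0 A.card
      rw [abs_le]; constructor <;> linarith
    · rwa [sub_zero, abs_of_nonneg h4]

theorem typeIG (q : ι → ℕ) (hq : ∀ i, (q i).Prime) (hinj : Function.Injective q) {D : ℕ}
    (hD : 16 ≤ D) (hDq : ∀ i, D < q i) {W : ℕ} (hW : W ≠ 0) (hWq : ∀ i, Nat.Coprime W (q i))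
    (hκ : Fintype.card κ ≤ 4) {g : κ → ℤ} (hg : Function.Injective g) (hg8 : ∀ j, 2 * |g j| ≤ D)
    {j0 : κ} (hj0 : g j0 = 0) (E0 : Finset ι) (a : ℕ) {N1 N2 : ℕ} (hN : N1 ≤ N2)
    (y y' : (κ → Finset ι) → ℝ) (hy : ∀ T, |y T| ≤ 1) (hy' : ∀ T, |y' T| ≤ 1)
    (hd : ∀ T, y T ≠ 0 → ∀ i ∈ E0, i ∉ T j0) (hd' : ∀ T, y' T ≠ 0 → ∀ i ∈ E0, i ∉ T j0)
    {s σ Λ : ℝ} (hs : 0 ≤ s) (hσ : 1 < σ)
    (hsupp : ∀ T U, y T ≠ 0 → y' U ≠ 0 → lgs q T + lgs q U ≤ Λ) :
    |∑ m ∈ Ioc N1 N2 with m ≡ a [MOD W] ∧ ∀ i ∈ E0, q i ∣ m, SS q g y m * SS q g y' m -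
      ((N2 : ℝ) - N1) / (W * ∏ i ∈ E0, (q i : ℝ)) * ∑ T, y T * y' T * wts q T| ≤
      ((N2 : ℝ) - N1) / (W * ∏ i ∈ E0, (q i : ℝ)) * (Real.exp (s * Λ) *
        (Zf q (2 * s) ^ Fintype.card κ * (Real.exp (256 * ((2000 + 2 * E0.card) / D)) - 1))) +
      4 * Real.exp (σ * Λ) * Real.exp (768 * ∑' n : ℕ, (n : ℝ) ^ (-σ)) := by
  have h2 : ∀ i, 2 ≤ q i := fun i => (hq i).two_le
  have hD' : (0 : ℝ) < D := by have : 0 < D := by omega
                               positivity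
  set X : ℝ := ((N2 : ℝ) - N1) / (W * ∏ i ∈ E0, (q i : ℝ)) with hX
  have hX0 : 0 ≤ X := div_nonneg (sub_nonneg.2 (by exact_mod_cast hN)) (by positivity)
  set E : ι → Finset κ → Finset κ → ℝ := fun i A A' => if i ∈ E0 then
    (if j0 ∈ A ∨ j0 ∈ A' then ind (q i) A A' else loc (q i) g A 0 * loc (q i) g A' 0) else
    (q i : ℝ)⁻¹ * ∑ r ∈ range (q i), loc (q i) g A r * loc (q i) g A' r with hE
  have hp := perturb q h2 E (fun i => 2000 / (q i : ℝ) ^ 2 + if i ∈ E0 then 2 / (D : ℝ) else 0)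
    (fun i A A' => by
      have h16 : 16 < q i := lt_of_le_of_lt hD (hDq i)
      simp only [hE]
      split_ifs with h1 h3
      · simp; positivity
      · push Not at h3
        refine (cond_approxG h16 hg (fun j => lt_of_shift (hDq i) (hg8 j)) hj0 h3.1 h3.2).trans (le_add_of_nonneg_of_le
          (by positivity) ?_)
        gcongr; exact (hDq i).le
      · simpa using avg_approxG h16 hκ hg (fun j => lt_of_shift (hDq i) (hg8 j)) A A')
    hs y y' hy hy' hsupp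
  have he : (4 : ℝ) ^ Fintype.card κ * ∑ i, (2000 / (q i : ℝ) ^ 2 + if i ∈ E0 then 2 / (D : ℝ) else 0) ≤
      256 * ((2000 + 2 * (E0.card : ℝ)) / D) := by
    have h3 := sum_inv_sq_le q hinj (show 0 < D by omega) hDq
    refine mul_le_mul ((pow_le_pow_right₀ (by norm_num) hκ).trans (by norm_num)) ?_
      (sum_nonneg fun i _ => by split_ifs <;> positivity) (by norm_num)
    rw [sum_add_distrib, sum_ite_mem, univ_inter, sum_const, nsmul_eq_mul, add_div]
    refine add_le_add ?_ (le_of_eq (by ring))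
    calc ∑ i, 2000 / (q i : ℝ) ^ 2 = 2000 * ∑ i, 1 / (q i : ℝ) ^ 2 := by
          rw [mul_sum]; exact sum_congr rfl fun i _ => by ring
      _ ≤ 2000 * (1 / (D : ℝ)) := by gcongr
      _ = _ := by ring
  have h1 : |∑ m ∈ Ioc N1 N2 with m ≡ a [MOD W] ∧ ∀ i ∈ E0, q i ∣ m, SS q g y m * SS q g y' m -
      X * ∑ T : κ → Finset ι, ∑ U : κ → Finset ι, y T * y' U * ∏ i, E i (tr T i) (tr U i)| ≤
      4 * Real.exp (σ * Λ) * Real.exp (768 * ∑' n : ℕ, (n : ℝ) ^ (-σ)) := by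
    refine le_trans ?_ (mul_le_mul_of_nonneg_left (typeI_error q h2 hinj hκ hσ) (by positivity))
    rw [← transpose (fun i A A' => (if A = ∅ ∧ A' = ∅ then 1 else 3) *
        Real.exp (-(σ * ((A.card : ℝ) + A'.card) * Real.log (q i))))]
    simp only [SS_mul, mul_sum]
    rw [sum_comm, ← sum_sub_distrib]
    refine (abs_sum_le_sum_abs _ _).trans (sum_le_sum fun T _ => ?_)
    rw [sum_comm, ← sum_sub_distrib]
    refine (abs_sum_le_sum_abs _ _).trans (sum_le_sum fun U _ => ?_)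
    by_cases h0 : y T ≠ 0 ∧ y' U ≠ 0
    · have h3 := typeI_term q hq hinj hW hWq g E0 a hN (tr T) (tr U)
      have h4 := rankin q (show 0 ≤ σ by linarith) T U (hsupp T U h0.1 h0.2)
      have h5 : |y T * y' U| ≤ 1 := by
        rw [abs_mul]; exact mul_le_one₀ (hy T) (abs_nonneg _) (hy' U)
      have h6 : ∏ i, E i (tr T i) (tr U i) = ∏ i, (if i ∈ E0 then
          loc (q i) g (tr T i) 0 * loc (q i) g (tr U i) 0 else (q i : ℝ)⁻¹ *
            ∑ r ∈ range (q i), loc (q i) g (tr T i) r * loc (q i) g (tr U i) r) := by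
        refine prod_congr rfl fun i _ => ?_
        simp only [hE]
        split_ifs with h7 h8
        · simp only [mem_tr] at h8
          exact absurd h8 (not_or.2 ⟨hd T h0.1 i h7, hd' U h0.2 i h7⟩)
        · rfl
        · rfl
      rw [← mul_sum, mul_left_comm X, ← mul_sub, abs_mul, h6, prod_mul_distrib]
      refine (mul_le_of_le_one_left (abs_nonneg _) h5).trans (h3.trans ?_)
      refine (le_mul_of_one_le_right ((abs_nonneg _).trans h3) h4).trans (le_of_eq (by ring))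
    · have : y T * y' U = 0 := by
        by_contra h; exact h0 (mul_ne_zero_iff.1 h)
      simp only [this, zero_mul, sum_const_zero, mul_zero, sub_zero, abs_zero]
      exact mul_nonneg (by positivity) (prod_nonneg fun i _ => by split_ifs <;> positivity)
  refine (abs_sub_le _ (X * ∑ T : κ → Finset ι, ∑ U : κ → Finset ι,
    y T * y' U * ∏ i, E i (tr T i) (tr U i)) _).trans ?_
  rw [add_comm, ← mul_sub, abs_mul, abs_of_nonneg hX0]
  refine add_le_add (mul_le_mul_of_nonneg_left (hp.trans ?_) hX0) h1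
  have := one_le_Zf q h2 (2 * s)
  gcongr

end

namespace BV

section

variable {ι : Type} [Fintype ι] [DecidableEq ι] {q : ι → ℕ} [hq : ∀ i, Fact (q i).Prime]
  {g : Fin 3 → ℤ} {y y' : (Fin 3 → Finset ι) → ℝ}

lemma norm_CC_leG {L : ℝ} (hL : 0 < L) (hi : Function.Injective q) (h16 : ∀ i, 16 < q i)
    (hg : Function.Injective g) (hg8 : ∀ i j, g j ≠ 0 ∧ 2 * |g j| < q i)
    (hy : ∀ T, |y T| ≤ 1) (hy' : ∀ T, |y' T| ≤ 1)
    (hs : ∀ T U, y T ≠ 0 → y' U ≠ 0 → lgs q T + lgs q U ≤ L) (χ : Ch q) :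
    ‖CC q g y y' χ‖ ≤ 3 * (Zf q (2 * L⁻¹) ^ 3 * Real.exp 8000) *
      (192 ^ (supp q χ).card / cond q χ) := by
  classical
  have h1 : ‖CC q g y y' χ‖ ≤ ∑ T : Fin 3 → Finset ι, ∑ U : Fin 3 → Finset ι,
      |y T * y' U| * ∏ i, ‖co (q i) g (tr T i) (tr U i) (χ i)‖ := by
    refine (norm_sum_le _ _).trans (sum_le_sum fun T _ => (norm_sum_le _ _).trans
      (sum_le_sum fun U _ => ?_))
    rw [norm_mul, norm_prod, Complex.norm_real, Real.norm_eq_abs]
  refine h1.trans ((weights hL hy hy' hs (fun i A A' => ‖co (q i) g A A' (χ i)‖)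
    fun _ _ _ => norm_nonneg _).trans ?_)
  have hs0 : 0 ≤ L⁻¹ := inv_nonneg.2 hL.le
  have h2 := majorant q (fun i => (hq i).out.two_le) (fun i A A' => ubar (q i) g A A')
    (fun i => 2000 / (q i : ℝ) ^ 2)
    (fun i A A' => ubar_approxG (h16 i) (by simp) hg (hg8 i) A A') hs0
  have h3 : (4 : ℝ) ^ Fintype.card (Fin 3) * ∑ i, 2000 / (q i : ℝ) ^ 2 ≤ 8000 := by
    have := sum_inv_sq_le q hi (D := 16) (by norm_num) h16
    have e : ∑ i, 2000 / (q i : ℝ) ^ 2 = 2000 * ∑ i, 1 / (q i : ℝ) ^ 2 := by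
      rw [mul_sum]; exact sum_congr rfl fun i _ => by ring
    rw [e, Fintype.card_fin]
    norm_num at this ⊢
    linarith
  rw [Fintype.card_fin] at h2 h3
  have h4 := h2.trans (mul_le_mul_of_nonneg_left (Real.exp_le_exp.2 h3)
    (pow_nonneg (Zf_nonneg _) 3))
  have h5 : (192 : ℝ) ^ (supp q χ).card / cond q χ =
      ∏ i, if χ i ≠ 1 then 192 / (q i : ℝ) else 1 := by
    have e : supp q χ = univ.filter fun i => χ i ≠ 1 := by ext i; simp [supp]
    rw [← prod_filter, cond, Nat.cast_prod, prod_div_distrib, prod_const, e]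
  rw [mul_assoc]
  refine mul_le_mul_of_nonneg_left (le_trans ?_
    (mul_le_mul_of_nonneg_right h4 (by positivity))) (by norm_num)
  rw [h5, ← prod_mul_distrib]
  refine prod_le_prod (fun i _ => sum_nonneg fun A _ => sum_nonneg fun A' _ =>
    mul_nonneg (norm_nonneg _) (rho_pos _ _ _ _).le) fun i _ => ?_
  by_cases h : χ i = 1
  · simp only [h, co_one, Complex.norm_real, Real.norm_eq_abs, ne_eq, not_true, if_false, mul_one]
    exact le_rfl
  · rw [if_pos h]
    have h6 : (1 : ℝ) ≤ ∑ A, ∑ A', |ubar (q i) g A A'| * rho L⁻¹ (q i) A A' := by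
      have n0 : ∀ A A', 0 ≤ |ubar (q i) g A A'| * rho L⁻¹ (q i) A A' := fun A A' =>
        mul_nonneg (abs_nonneg _) (rho_pos _ _ _ _).le
      refine le_trans ?_ (single_le_sum (fun A _ => sum_nonneg fun A' _ => n0 A A') (mem_univ ∅))
      refine le_trans ?_ (single_le_sum (fun A' _ => n0 ∅ A') (mem_univ ∅))
      simp [ubar_empty, rho]
    refine le_trans ?_ (le_mul_of_one_le_left (by positivity) h6)
    refine (sum_pairs_le (c := 3 / q i) fun A A' => ?_).trans (le_of_eq (by ring))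
    refine (mul_le_of_le_one_right (norm_nonneg _) (rho_le hs0 _ _ _)).trans ?_
    by_cases h7 : A = ∅ ∧ A' = ∅
    · rw [h7.1, h7.2, co_empty h, norm_zero]; positivity
    · exact norm_co_le (by have := h16 i; omega) h7 _

lemma err_leG {L lam : ℝ} (hL : 0 < L) (h1 : 1 ≤ lam) (h16 : ∀ i, 16 < q i)
    (hg8 : ∀ i j, g j ≠ 0 ∧ 2 * |g j| < q i) (hy : ∀ T, |y T| ≤ 1) (hy' : ∀ T, |y' T| ≤ 1)
    (hs : ∀ T U, y T ≠ 0 → y' U ≠ 0 → lgs q T + lgs q U ≤ L) (n : ℕ)
    (hn : ∀ i, q i ∣ n → lam ≤ q i) :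
    |SS q g y n * SS q g y' n - Th0 q g y y' n| ≤ 2 * lam⁻¹ * (3 * (Zf q L⁻¹ ^ 6 *
      192 ^ (univ.filter fun i => (q i : ℤ) ∣ n * ∏ j, (n + g j)).card)) := by
  classical
  let k : ι → Finset (Fin 3) → Finset (Fin 3) → ℝ := fun i A A' =>
    if q i ∣ n then (if A = ∅ ∧ A' = ∅ then 1 else lam * (3 / q i)) else |th (q i) g A A' n|
  have hk : ∀ i A A', 0 ≤ k i A A' := fun i A A' => by
    simp only [k]; split_ifs <;> positivity
  have h2 : ∀ i, 2 ≤ q i := fun i => (hq i).out.two_le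
  have hs0 : 0 ≤ L⁻¹ := inv_nonneg.2 hL.le
  have b1 : ∀ i A A', q i ∣ n → ¬ (A = ∅ ∧ A' = ∅) →
      |th (q i) g A A' n| ≤ 3 / q i ∧ |th0 (q i) g A A' n| ≤ 3 / q i := by
    intro i A A' hi hA
    have h3 : 3 ≤ q i := by have := h16 i; omega
    refine ⟨?_, by rw [th0, if_pos hi]; exact abs_ubar_le h3 hA⟩
    obtain ⟨j, hj⟩ := abs_th_le' (g := g) (h2 i) hA
    refine (hj n).trans ?_
    rw [xi, if_neg, abs_of_nonneg (inv_pred_nonneg (h2 i))]
    · linarith [two_div_le h3, inv_pred_nonneg (h2 i)]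
    · rw [dvd_add_right (by exact_mod_cast hi)]
      intro h
      have := abs_nonneg (g j)
      exact (hg8 i j).1 (Int.eq_zero_of_abs_lt_dvd h (by have := (hg8 i j).2; omega))
  have b2 : ∀ i A A', |th (q i) g A A' n| ≤ k i A A' ∧ |th0 (q i) g A A' n| ≤ k i A A' := by
    intro i A A'
    simp only [k]
    split_ifs with hi hA
    · rw [hA.1, hA.2, th0, if_pos hi, th_empty, ubar_empty]; simp
    · have := le_mul_of_one_le_left (show (0 : ℝ) ≤ 3 / q i by positivity) h1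
      exact (b1 i A A' hi hA).imp (·.trans this) (·.trans this)
    · rw [th0, if_neg hi]; simp
  have b3 : ∀ T U : Fin 3 → Finset ι, |∏ i, th (q i) g (tr T i) (tr U i) n -
      ∏ i, th0 (q i) g (tr T i) (tr U i) n| ≤ 2 * lam⁻¹ * ∏ i, k i (tr T i) (tr U i) := by
    intro T U
    by_cases h : ∃ i, q i ∣ n ∧ ¬ (tr T i = ∅ ∧ tr U i = ∅)
    · obtain ⟨i, hi, hA⟩ := h
      have e : lam⁻¹ * k i (tr T i) (tr U i) = 3 / q i := by
        simp only [k, if_pos hi, if_neg hA]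
        rw [inv_mul_cancel_left₀ (by linarith)]
      have c1 := abs_prod_le (fun i => (b2 i (tr T i) (tr U i)).1) i (e ▸ (b1 i _ _ hi hA).1)
      have c2 := abs_prod_le (fun i => (b2 i (tr T i) (tr U i)).2) i (e ▸ (b1 i _ _ hi hA).2)
      refine (abs_sub _ _).trans ?_
      linarith
    · push Not at h
      rw [prod_congr rfl fun i _ => show th (q i) g (tr T i) (tr U i) n =
        th0 (q i) g (tr T i) (tr U i) n from ?_, sub_self, abs_zero]
      · have := prod_nonneg fun i (_ : i ∈ univ) => hk i (tr T i) (tr U i)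
        positivity
      · unfold th0
        split_ifs with hi
        · rw [(h i hi).1, (h i hi).2, th_empty, ubar_empty]
        · rfl
  have b4 : |SS q g y n * SS q g y' n - Th0 q g y y' n| ≤ 2 * lam⁻¹ *
      ∑ T : Fin 3 → Finset ι, ∑ U : Fin 3 → Finset ι,
        |y T * y' U| * ∏ i, k i (tr T i) (tr U i) := by
    rw [SS_mul, Th0, ← sum_sub_distrib, mul_sum]
    refine (abs_sum_le_sum_abs _ _).trans (sum_le_sum fun T _ => ?_)
    rw [← sum_sub_distrib, mul_sum]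
    refine (abs_sum_le_sum_abs _ _).trans (sum_le_sum fun U _ => ?_)
    rw [← mul_sub, abs_mul, mul_left_comm]
    exact mul_le_mul_of_nonneg_left (b3 T U) (abs_nonneg _)
  refine b4.trans (mul_le_mul_of_nonneg_left ((weights hL hy hy' hs k hk).trans
    (mul_le_mul_of_nonneg_left ?_ (by norm_num))) (by positivity))
  rw [← prod_const, prod_filter, Zf, ← prod_pow, ← prod_mul_distrib]
  refine prod_le_prod (fun i _ => sum_nonneg fun A _ => sum_nonneg fun A' _ =>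
    mul_nonneg (hk _ _ _) (rho_pos _ _ _ _).le) fun i _ => ?_
  set c := Real.exp (-(L⁻¹ * Real.log (q i))) * ((q i : ℝ) - 1)⁻¹ with hc
  have hc0 : 0 ≤ c := mul_nonneg (Real.exp_pos _).le (inv_pred_nonneg (h2 i))
  split_ifs with h
  · refine le_trans ?_ (le_mul_of_one_le_left (by norm_num) (one_le_pow₀ (by linarith)))
    refine (sum_pairs_le (c := 3) fun A A' => ?_).trans (by norm_num)
    refine (mul_le_of_le_one_right (hk _ _ _) (rho_le hs0 _ _ _)).trans ?_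
    simp only [k]
    split_ifs with hi hA
    · norm_num
    · have h0 : (0 : ℝ) < q i := by exact_mod_cast (hq i).out.pos
      rw [mul_div_assoc', div_le_iff₀ h0]
      linarith [hn i hi]
    · linarith [abs_th_le (g := g) (A := A) (A' := A') (h2 i) n]
  · have hi : ¬ q i ∣ n := fun hi => h (Dvd.dvd.mul_right (by exact_mod_cast hi) _)
    have hj : ∀ j, xi (q i) (n + g j) = ((q i : ℝ) - 1)⁻¹ := fun j => by
      rw [xi, if_neg fun hj => h (Dvd.dvd.mul_left (hj.trans (dvd_prod_of_mem _ (mem_univ j))) _)]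
    have e : ∀ A A', k i A A' * rho L⁻¹ (q i) A A' = c ^ A.card * c ^ A'.card := fun A A' => by
      simp only [k, if_neg hi, th, loc, hj, prod_const, rho, hc, mul_pow, ← Real.exp_nat_mul]
      rw [abs_of_nonneg (by have := inv_pred_nonneg (h2 i); positivity), mul_mul_mul_comm,
        ← Real.exp_add, mul_comm]
      congr 2
      ring
    simp only [e, ← mul_sum, ← sum_mul, sum_pow_card]
    exact le_of_eq (by ring)

end

lemma box_finalG (D : ℕ) (hD : 16 ≤ D) {η δ ε : ℝ} (hη : 0 < η) (hδ : 0 < δ) (hε : 0 < ε)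
    (g : Fin 3 → ℤ) (hg : Function.Injective g) (hg8 : ∀ j, g j ≠ 0 ∧ 2 * |g j| ≤ D) (a : ℕ) :
    ∀ᶠ x : ℕ in atTop, ∀ (y y' : (Fin 3 → Finset (PP D x)) → ℝ) (β : ℕ → ℝ) (lo hi j r : ℕ)
      (S : Finset ℕ), (∀ T, |y T| ≤ 1) → (∀ T, |y' T| ≤ 1) →
      (∀ T U, y T ≠ 0 → y' U ≠ 0 →
        lgs (qq D x) T + lgs (qq D x) U ≤ (1 / 2 - η) * Real.log x) →
      (∀ m ∈ S, |β m| ≤ 1 ∧ (x : ℝ) ^ η ≤ m ∧ (∀ p ∈ m.primeFactors, (x : ℝ) ^ η < p) ∧
        box δ m = j) →
      (x : ℝ) ^ η ≤ lo → (hi : ℝ) ≤ 2 * x * Real.exp (-(j * δ)) →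
      |∑ m ∈ S, β m * ∑ p ∈ Ioc lo hi with p.Prime ∧ p * r ≡ a [MOD primorial D],
        Real.log p * (SS (qq D x) g y (p * m : ℕ) * SS (qq D x) g y' (p * m : ℕ) -
          Tbar (qq D x) g y y')| ≤ ε * x * Real.log x ^ 2 := by
  classical
  set s := η / 200 with hs
  have hs0 : 0 < s := by positivity
  obtain ⟨Ca, hCa, ha⟩ := pow_card_le' (ε := 1 / 2) (by norm_num)
  obtain ⟨Cb, hCb, hb⟩ := pow_card_le' hs0
  obtain ⟨Cc, hCc, hc⟩ := pow_card_le' (ε := s / 8) (by positivity)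
  set C0 : ℝ := 24 * Real.exp 8000 with hC0
  have hC0' : 0 < C0 := by positivity
  set e' := ε / (6 * Real.exp δ) with he'
  have he0 : 0 < e' := by positivity
  obtain ⟨Q, hQ1, hQ2⟩ : ∃ Q : ℕ, D ≤ Q ∧ 18 * C0 * Ca / (e' * s ^ 2) ≤ √Q := by
    obtain ⟨Q, h1, h2⟩ := ((eventually_ge_atTop D).and
      ((Real.tendsto_sqrt_atTop.comp tendsto_natCast_atTop_atTop).eventually_ge_atTop
        (18 * C0 * Ca / (e' * s ^ 2)))).exists
    exact ⟨Q, h1, h2⟩
  set e1 := e' * s / (300 * C0 * Ca * (1 + (Q : ℝ) ^ 2)) with he1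
  have he10 : 0 < e1 := by positivity
  obtain ⟨t0, ht0⟩ := small_cond D Q a hQ1 he10
  have hpow : ∀ t : ℝ, 0 < t → Tendsto (fun x : ℕ => (x : ℝ) ^ t) atTop atTop := fun t ht =>
    (tendsto_rpow_atTop ht).comp tendsto_natCast_atTop_atTop
  filter_upwards [log_ev, Zf_ev D le_rfl, Zf_ev D one_le_two,
    log_pow_ev hs0 ((768 * Cc + 6000 * C0 * Cb) / e'), (hpow s hs0).eventually_ge_atTop 4,
    (hpow η hη).eventually_ge_atTop t0,
    tendsto_natCast_atTop_atTop.eventually_ge_atTop (2 * Real.exp δ + D),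
    (hpow η hη).eventually_ge_atTop D]
    with x hL hZ1 hZ2 hsm hY ht hx hYD y y' β lo hi j r S hy hy' hsupp hS hlo hhi
  set L := Real.log x with hLdef
  set Y := (x : ℝ) ^ s with hYdef
  have hed : 1 ≤ Real.exp δ := Real.one_le_exp hδ.le
  have hD' : (16 : ℝ) ≤ D := by exact_mod_cast hD
  have hx0 : (0 : ℝ) < x := by linarith
  have hL0 : 0 < L := by linarith
  have hY0 : 0 < Y := by linarith
  have hη' : (x : ℝ) ^ η = Y ^ 200 := by
    rw [hYdef, ← Real.rpow_natCast, ← Real.rpow_mul hx0.le]; congr 1; rw [hs]; push_cast; ring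
  have hlY : Real.log Y = s * L := Real.log_rpow hx0 s
  rw [hη'] at hS hlo ht hYD
  rcases S.eq_empty_or_nonempty with rfl | ⟨m0, hm0⟩
  · rw [sum_empty, abs_zero]; positivity
  rcases le_or_gt hi lo with hlh | hlh
  · simp only [Ioc_eq_empty_of_le hlh, filter_empty, sum_empty, mul_zero, sum_const_zero, abs_zero]
    positivity
  obtain ⟨r1, r2, r3, r4, r5, r6⟩ := level hY
  set R := ⌊Y ^ 2⌋₊ with hR
  set S' := (Ioc lo hi).filter fun p => p.Prime ∧ p * r ≡ a [MOD primorial D] with hS'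
  set M := Real.exp ((j + 1) * δ) with hM
  set N := 2 * x * Real.exp (-(j * δ)) with hN
  have hMN : M * N = 2 * Real.exp δ * x := by
    rw [hM, hN, show ((j : ℝ) + 1) * δ = δ + j * δ by ring, Real.exp_add, Real.exp_neg]
    field_simp
  have hY1 : (1 : ℝ) ≤ Y := by linarith
  have hY2 : Y ^ 2 ≤ Y ^ 200 := pow_le_pow_right₀ hY1 (by norm_num)
  have hY3 : (16 : ℝ) ≤ Y ^ 200 := by nlinarith
  have a1 : ∀ m ∈ S, 1 ≤ m ∧ (m : ℝ) ≤ M := fun m hm => by
    have h0 : (1 : ℝ) ≤ m := by linarith [(hS m hm).2.1]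
    refine ⟨by exact_mod_cast h0, ?_⟩
    rw [hM, ← Real.log_le_iff_le_exp (by linarith), ← div_le_iff₀ hδ, ← (hS m hm).2.2.2]
    exact (Nat.lt_floor_add_one _).le
  have a2 : ∀ p ∈ S', p.Prime ∧ Y ^ 200 < p ∧ (p : ℝ) ≤ N := fun p hp => by
    simp only [hS', mem_filter, mem_Ioc] at hp
    exact ⟨hp.2.1, hlo.trans_lt (by exact_mod_cast hp.1.1),
      le_trans (by exact_mod_cast hp.1.2) hhi⟩
  have a3 : ∀ p ∈ S', 1 ≤ p ∧ (p : ℝ) ≤ N := fun p hp => ⟨(a2 p hp).1.pos, (a2 p hp).2.2⟩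
  have hM1 : Y ^ 200 ≤ M := (hS m0 hm0).2.1.trans (a1 m0 hm0).2
  have hN1 : Y ^ 200 ≤ N := hlo.trans (le_trans (by exact_mod_cast hlh.le) hhi)
  have a4 : ∀ m ∈ S, ∀ l : ℕ, l.Prime → l ∣ m → Y ^ 200 < l := fun m hm l hl hd =>
    (hS m hm).2.2.1 l (Nat.mem_primeFactors.2 ⟨hl, hd, by have := (a1 m hm).1; omega⟩)
  have a5 : ∀ p ∈ S', ∀ l : ℕ, l.Prime → l ∣ p → Y ^ 200 < l := fun p hp l hl hd =>
    (Nat.prime_dvd_prime_iff_eq hl (a2 p hp).1).1 hd ▸ (a2 p hp).2.1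
  have a6 : ∀ p ∈ S', |Real.log p| ≤ 2 * L := fun p hp => by
    have h1 : N ≤ 2 * x := mul_le_of_le_one_right (by positivity)
      (Real.exp_le_one_iff.2 (neg_nonpos.2 (by positivity)))
    have h2 : (0 : ℝ) < p := by exact_mod_cast (a2 p hp).1.pos
    rw [abs_of_nonneg (Real.log_natCast_nonneg p), hLdef,
      show 2 * Real.log x = Real.log (x ^ 2) by simp]
    exact Real.log_le_log h2 (by nlinarith [(a2 p hp).2.2])
  have h16 : ∀ i, 16 < qq D x i := fun i => hD.trans_lt (lt_qq D x i)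
  have hgq : ∀ i j, g j ≠ 0 ∧ 2 * |g j| < qq D x i := fun i j =>
    ⟨(hg8 j).1, lt_of_shift (lt_qq D x i) (hg8 j).2⟩
  have hpr : ∀ i, (qq D x i).Prime := fun i => Fact.out
  have hsL : ∀ T U, y T ≠ 0 → y' U ≠ 0 → lgs (qq D x) T + lgs (qq D x) U ≤ L :=
    fun T U h1 h2 => (hsupp T U h1 h2).trans (by nlinarith)
  have hE : ∀ m ∈ S, ∀ p ∈ S', |SS (qq D x) g y (p * m : ℕ) * SS (qq D x) g y' (p * m : ℕ) -
      Th0 (qq D x) g y y' (p * m)| ≤ 384 * Cc * L ^ 6 / Y := by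
    intro m hm p hp
    refine (err_leG hL0 (lam := Y ^ 200) (by linarith) h16 hgq hy hy' hsL (p * m) fun i hi =>
      ((Nat.Prime.dvd_mul (hpr i)).1 hi).elim (fun h => (a5 p hp _ (hpr i) h).le)
        fun h => (a4 m hm _ (hpr i) h).le).trans ?_
    have b1 : (D : ℝ) ≤ (p * m : ℕ) := by
      have : (1 : ℝ) ≤ m := by exact_mod_cast (a1 m hm).1
      push_cast
      nlinarith [(a2 p hp).2.1]
    have b2 : ((p * m : ℕ) : ℝ) + D ≤ x ^ 2 := by
      have : (p : ℝ) * m ≤ N * M := mul_le_mul (a3 p hp).2 (a1 m hm).2 (by positivity)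
        (by positivity)
      push_cast
      nlinarith
    generalize p * m = n at b1 b2
    have b3 : (D : ℤ) ≤ n := by exact_mod_cast b1
    have b4 : (n : ℤ) * ∏ j, (n + g j) ≠ 0 := mul_ne_zero (by omega) (prod_ne_zero_iff.2
      fun j _ => by have := neg_abs_le (g j); have := (hg8 j).2; omega)
    have b5 : |(((n : ℤ) * ∏ j, (n + g j) : ℤ) : ℝ)| ≤ x ^ 8 := by
      have c : ∀ j, |(n : ℝ) + g j| ≤ x ^ 2 := fun j => by
        have : 2 * |(g j : ℝ)| ≤ D := by exact_mod_cast (hg8 j).2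
        exact (abs_add_le _ _).trans (by rw [Nat.abs_cast]; linarith)
      push_cast
      rw [abs_mul, abs_prod, Fin.prod_univ_three, Nat.abs_cast]
      calc _ ≤ (x : ℝ) ^ 2 * (x ^ 2 * x ^ 2 * x ^ 2) := by
            gcongr
            exacts [by linarith, c 0, c 1, c 2]
        _ = _ := by ring
    have b6 := (prod_le_of_dvd (qq_inj D x) hpr b4 fun i hi =>
      (mem_filter.1 (show i ∈ univ.filter _ from hi)).2).trans b5
    have b7 := (hc _ _ (qq_inj D x) hpr _).trans (mul_le_mul_of_nonneg_left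
      (Real.rpow_le_rpow (Nat.cast_nonneg _) b6 (by positivity)) hCc.le)
    rw [← Real.rpow_natCast (x : ℝ), ← Real.rpow_mul hx0.le,
      show ((8 : ℕ) : ℝ) * (s / 8) = s by push_cast; ring, ← hYdef] at b7
    rw [one_mul] at hZ1
    have b8 := Zf_nonneg (q := qq D x) L⁻¹
    calc _ ≤ 2 * (Y ^ 2)⁻¹ * (3 * ((2 * L) ^ 6 * (Cc * Y))) := by gcongr
      _ = _ := by field_simp; ring
  set F := ⌊(x : ℝ) ^ (1 / 2 - η)⌋₊ with hF
  have hF1 : (F : ℝ) ≤ (x : ℝ) ^ (1 / 2 - η) := Nat.floor_le (by positivity)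
  have hF2 : (F : ℝ) ≤ x := hF1.trans (by
    simpa using Real.rpow_le_rpow_of_exponent_le (x := x) (by linarith)
      (show 1 / 2 - η ≤ 1 by linarith))
  have hcp : ∀ χ : Ch (qq D x), (0 : ℝ) < cond (qq D x) χ := fun χ => by
    exact_mod_cast cond_pos χ
  have w0 : ∀ χ, ‖CC (qq D x) g y y' χ‖ ≤
      C0 * L ^ 3 * (192 ^ (supp (qq D x) χ).card / cond (qq D x) χ) := fun χ => by
    refine (norm_CC_leG hL0 (qq_inj D x) h16 hg hgq hy hy' hsL χ).trans ?_
    have := Zf_nonneg (q := qq D x) (2 * L⁻¹)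
    calc _ ≤ 3 * ((2 * L) ^ 3 * Real.exp 8000) *
          (192 ^ (supp (qq D x) χ).card / (cond (qq D x) χ : ℝ)) := by gcongr
      _ = _ := by rw [hC0]; ring
  have w3 : ∀ χ, F < cond (qq D x) χ → ‖CC (qq D x) g y y' χ‖ = 0 := fun χ h => by
    by_contra h0
    have := CC_support hsupp (norm_ne_zero_iff.1 h0)
    rw [hLdef, ← Real.log_rpow hx0, Real.log_le_log_iff (hcp χ) (by positivity)] at this
    exact h.not_ge (Nat.le_floor this)
  have key := box_bound (qq_inj D x) (R := R) (Q := Q) (F := F) (M := M) (N := N) (c := 2 * L)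
    (ε := e1) (C := C0 * L ^ 3 * Ca) (V := C0 * L ^ 3 * (Cb * Y)) (S := S) (S' := S')
    (a := fun m => β m) (b := fun p => Real.log p) r1 (by omega) (by positivity) he10.le
    (by positivity) (by positivity) a1 a3
    (fun m hm l hl hd => by exact_mod_cast (r2.trans hY2).trans_lt (a4 m hm l hl hd))
    (fun m hm l hl hd => by exact_mod_cast (r2.trans hY2).trans_lt (a5 m hm l hl hd))
    (fun m hm => by simpa using (hS m hm).1)
    (fun p hp => by rw [Complex.norm_real]; exact a6 p hp)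
    (r6 M hM1) (r6 N hN1) (by
      have d1 : M * (2 * (R : ℝ) ^ 2) ≤ M * N := by gcongr; linarith
      have d2 : N * (2 * (R : ℝ) ^ 2) ≤ N * M := by gcongr; linarith
      linarith) (by
      have d1 : ((x : ℝ) ^ (1 / 2 - η)) ^ 2 * (Y ^ 200) ^ 2 = x := by
        rw [← hη', ← mul_pow, ← Real.rpow_add hx0, sub_add_cancel, ← Real.sqrt_eq_rpow,
          Real.sq_sqrt hx0.le]
      calc _ ≤ ((x : ℝ) ^ (1 / 2 - η)) ^ 2 * (Y ^ 200) ^ 2 := by gcongr; exact r2.trans hY2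
        _ ≤ _ := by rw [d1, hMN]; nlinarith)
    (fun χ => ‖CC (qq D x) g y y' χ‖) (fun χ => by
      refine (w0 χ).trans ?_
      have d1 := ha _ _ (qq_inj D x) hpr (supp (qq D x) χ)
      rw [← Real.sqrt_eq_rpow] at d1
      have d2 := Real.sqrt_pos.2 (hcp χ)
      rw [mul_div_assoc]
      refine mul_le_mul_of_nonneg_left ?_ (by positivity)
      rw [div_le_div_iff₀ (hcp χ) d2]
      calc _ ≤ Ca * √(cond (qq D x) χ) * √(cond (qq D x) χ) :=
            mul_le_mul_of_nonneg_right d1 d2.le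
        _ = _ := by rw [mul_assoc, Real.mul_self_sqrt (hcp χ).le]) (fun χ => by
      rcases le_or_gt (cond (qq D x) χ) F with h | h
      · refine (w0 χ).trans ?_
        have d1 := (hb _ _ (qq_inj D x) hpr (supp (qq D x) χ)).trans (mul_le_mul_of_nonneg_left
          (Real.rpow_le_rpow (Nat.cast_nonneg _) ((Nat.cast_le.2 h).trans hF2) hs0.le) hCb.le)
        rw [mul_div_assoc]
        gcongr
      · rw [w3 χ h]; positivity) w3 (fun χ h1 h2 =>
      (ht0 _ _ (qq_inj D x) (lt_qq D x) χ lo hi r h1 h2 (ht.trans hlo)).trans (by gcongr))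
  refine (split_le (qq D x) g y y' S S' β (fun p => Real.log p) (fun m hm => (hS m hm).1)
    a6 hE).trans ?_
  have f1 : (S.card : ℝ) * (S'.card * (2 * L * (384 * Cc * L ^ 6 / Y))) ≤
      M * N * (768 * Cc * L ^ 7 / Y) := by
    have d1 := card_le_real (by positivity) a1
    have d2 := card_le_real (by positivity) a3
    calc _ ≤ M * (N * (2 * L * (384 * Cc * L ^ 6 / Y))) := by gcongr
      _ = _ := by ring
  have hsl : 0 < s * L := by positivity
  rw [hlY] at r4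
  have f2 : 300 * (C0 * L ^ 3 * Ca) * (1 + (Q : ℝ) ^ 2) * e1 / Real.log R ≤ e' * L ^ 2 := by
    calc _ ≤ 300 * (C0 * L ^ 3 * Ca) * (1 + (Q : ℝ) ^ 2) * e1 / (s * L) := by gcongr
      _ = _ := by rw [he1]; field_simp
  have f3 : 9 * (C0 * L ^ 3 * Ca) * (2 * L) / (√Q * Real.log R ^ 2) ≤ e' * L ^ 2 := by
    calc _ ≤ 9 * (C0 * L ^ 3 * Ca) * (2 * L) / (18 * C0 * Ca / (e' * s ^ 2) * (s * L) ^ 2) := by
          gcongr
      _ = _ := by field_simp; ring
  have f4 : ((Nat.log 2 F + 1 : ℕ) : ℝ) * (500 * (C0 * L ^ 3 * (Cb * Y)) * (2 * L) / R) ≤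
      6000 * C0 * Cb * L ^ 7 / Y := by
    have d1 := log_two_le hF2 hL (by linarith)
    have d2 : L ^ 5 ≤ L ^ 7 := pow_le_pow_right₀ hL (by norm_num)
    calc _ ≤ 3 * L * (500 * (C0 * L ^ 3 * (Cb * Y)) * (2 * L) / (Y ^ 2 / 2)) := by gcongr
      _ = 6000 * C0 * Cb * L ^ 5 / Y := by field_simp; ring
      _ ≤ _ := by gcongr
  have f5 : 768 * Cc * L ^ 7 / Y + 6000 * C0 * Cb * L ^ 7 / Y ≤ e' * L ^ 2 := by
    rw [div_mul_eq_mul_div, div_le_iff₀ he0] at hsm
    rw [← add_div, div_le_iff₀ hY0]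
    have : Y * e' ≤ e' * L ^ 2 * Y := by
      have := mul_le_mul_of_nonneg_left (one_le_pow₀ (n := 2) hL) (mul_pos hY0 he0).le
      linarith
    linarith
  have f6 : M * N * (3 * (e' * L ^ 2)) = ε * x * L ^ 2 := by
    rw [hMN, he']; field_simp; ring
  have f7 : 0 ≤ M * N := by positivity
  have f8 := mul_le_mul_of_nonneg_left (add_le_add (add_le_add f2 f3) f4) f7
  have f9 := mul_le_mul_of_nonneg_left f5 f7
  linarith

end BV

theorem bvG (D : ℕ) (hD : 16 ≤ D) {η δ ε : ℝ} (hη : 0 < η) (hδ : 0 < δ) (hε : 0 < ε)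
    (g : Fin 3 → ℤ) (hg : Function.Injective g) (hg8 : ∀ j, g j ≠ 0 ∧ 2 * |g j| ≤ D) (a : ℕ) :
    ∀ᶠ x : ℕ in atTop, ∀ (y y' : (Fin 3 → Finset (PP D x)) → ℝ) (β : ℕ → ℝ) (lo hi : ℕ → ℕ),
      (∀ T, |y T| ≤ 1) → (∀ T, |y' T| ≤ 1) →
      (∀ T U, y T ≠ 0 → y' U ≠ 0 →
        lgs (qq D x) T + lgs (qq D x) U ≤ (1 / 2 - η) * Real.log x) →
      (∀ m, |β m| ≤ 1) →
      (∀ m, β m ≠ 0 → (x : ℝ) ^ η ≤ m ∧ (m : ℝ) ≤ (x : ℝ) ^ (1 - η) ∧
        ∀ p ∈ m.primeFactors, (x : ℝ) ^ η < p) →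
      (∀ j, (x : ℝ) ^ η ≤ lo j ∧ (hi j : ℝ) ≤ 2 * x * Real.exp (-(j * δ))) →
      |∑ m ∈ Icc 1 x, β m * ∑ p ∈ Ioc (lo (box δ m)) (hi (box δ m)) with
          p.Prime ∧ p * m ≡ a [MOD primorial D],
        Real.log p * (SS (qq D x) g y (p * m : ℕ) * SS (qq D x) g y' (p * m : ℕ) -
          Tbar (qq D x) g y y')| ≤ ε * x * Real.log x ^ 3 := by
  classical
  have hW : 0 < primorial D := primorial_pos D
  have hW' : (0 : ℝ) < primorial D := by exact_mod_cast hW
  filter_upwards [BV.box_finalG D hD hη hδ (ε := ε / ((δ⁻¹ + 1) * primorial D)) (by positivity)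
    g hg hg8 a, BV.log_ev] with x hx hL y y' β lo hi hy hy' hs hβ hβ' hlh
  rw [← sum_filter_of_ne (p := fun m => β m ≠ 0) fun m _ h => left_ne_zero_of_mul h,
    ← sum_fiberwise_of_maps_to (t := range (box δ x + 1) ×ˢ range (primorial D))
      (g := fun m => (box δ m, m % primorial D)) fun m hm => ?_]
  · refine (abs_sum_le_sum_abs _ _).trans ((sum_le_card_nsmul _ _
      (ε / ((δ⁻¹ + 1) * primorial D) * x * Real.log x ^ 2) fun k _ => ?_).trans ?_)
    · refine le_trans (le_of_eq ?_) (hx y y' β (lo k.1) (hi k.1) k.1 k.2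
        (((Icc 1 x).filter fun m => β m ≠ 0).filter fun m => (box δ m, m % primorial D) = k)
        hy hy' hs (fun m hm => ?_) (hlh _).1 (hlh _).2)
      · congr 1
        refine sum_congr rfl fun m hm => ?_
        rw [← (mem_filter.1 hm).2]
        have e : ∀ p : ℕ, p * (m % primorial D) ≡ p * m [MOD primorial D] := fun p =>
          (Nat.mod_modEq m _).mul_left p
        congr 2
        exact filter_congr fun p _ => and_congr_right fun _ => ⟨(e p).trans, (e p).symm.trans⟩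
      · have h1 := hβ' m (mem_filter.1 (mem_filter.1 hm).1).2
        exact ⟨hβ m, h1.1, h1.2.2, congrArg Prod.fst (mem_filter.1 hm).2⟩
    · rw [card_product, card_range, card_range, nsmul_eq_mul]
      have h1 : (box δ x : ℝ) ≤ Real.log x / δ := Nat.floor_le (by positivity)
      have h2 : ((box δ x + 1 : ℕ) : ℝ) ≤ (δ⁻¹ + 1) * Real.log x := by
        rw [div_eq_inv_mul] at h1
        push_cast
        linarith
      rw [Nat.cast_mul]
      calc _ ≤ (δ⁻¹ + 1) * Real.log x * primorial D *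
            (ε / ((δ⁻¹ + 1) * primorial D) * x * Real.log x ^ 2) := by gcongr
        _ = _ := by field_simp
  · have h1 := mem_Icc.1 (mem_filter.1 hm).1
    refine mem_product.2 ⟨mem_range.2 (Nat.lt_succ_of_le (Nat.floor_le_floor ?_)),
      mem_range.2 (Nat.mod_lt _ hW)⟩
    have : (0 : ℝ) < m := by exact_mod_cast h1.1
    gcongr
    exact h1.2

end Pool.Agent.Lib.MP_fc51f7_nt
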