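import Pool.Agent.Lib.MP_fc51f7_nt.Adm.A
import Pool.Agent.Lib.MP_fc51f7_nt.Bad

/-! Pairs of cells and exceptional integers for arbitrary shifts. -/

set_option autoImplicit false
set_option linter.unusedSectionVars false

namespace Pool.Agent.Lib.MP_fc51f7_nt

open Finset Filter Topology

section
variable {κ : Type} [Fintype κ] [DecidableEq κ]

theorem TIG {D : ℕ} (hD : 16 ≤ D) (hκ : Fintype.card κ ≤ 4) {g : κ → ℤ}
    (hg : Function.Injective g) (hg8 : ∀ j, 2 * |g j| ≤ D) {j0 : κ} (hj0 : g j0 = 0) (a : ℕ) :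
    ∀ᶠ x : ℕ in atTop, ∀ (E0 : Finset (PP D x)) (N1 N2 : ℕ)
      (y y' : (κ → Finset (PP D x)) → ℝ), E0.card ≤ 1 → N1 ≤ N2 →
      (∀ T, |y T| ≤ 1) → (∀ T, |y' T| ≤ 1) →
      (∀ T, y T ≠ 0 → (∀ i ∈ E0, i ∉ T j0) ∧ lgs (qq D x) T ≤ 33 / 100 * Real.log x) →
      (∀ T, y' T ≠ 0 → (∀ i ∈ E0, i ∉ T j0) ∧ lgs (qq D x) T ≤ 33 / 100 * Real.log x) →
      |∑ m ∈ Ioc N1 N2 with m ≡ a [MOD primorial D] ∧ ∀ i ∈ E0, qq D x i ∣ m,
          SS (qq D x) g y m * SS (qq D x) g y' m -
        ((N2 : ℝ) - N1) / (primorial D * ∏ i ∈ E0, (qq D x i : ℝ)) *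
          ∑ T, y T * y' T * wts (qq D x) T| ≤
        ((N2 : ℝ) - N1) / (primorial D * ∏ i ∈ E0, (qq D x i : ℝ)) *
          (eD D * BB D x ^ Fintype.card κ) + (x : ℝ) ^ (6605 / 10000 : ℝ) := by
  filter_upwards [Zf_le D, Meas.L_pos, eventually_gt_atTop 0, const_le_rpow
    (4 * Real.exp (768 * ∑' n : ℕ, (n : ℝ) ^ (-(2001 / 2000 : ℝ))))
    (show (0 : ℝ) < 1 / 10000 by norm_num)] with x hZ hL hx hC E0 N1 N2 y y' hE hN hy hy' hs hs'
  refine (typeIG (qq D x) (gr_prime D x) (qq_inj D x) hD (gr_gt D x) (primorial_ne_zero D)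
    (qq_cop D x) hκ hg hg8 hj0 E0 a hN y y' hy hy' (fun T h => (hs T h).1) (fun T h => (hs' T h).1)
    (s := (Real.log x)⁻¹) (σ := 2001 / 2000) (Λ := 66 / 100 * Real.log x) (by positivity)
    (by norm_num) fun T U h h' => by linarith [(hs T h).2, (hs' U h').2]).trans (add_le_add ?_ ?_)
  · refine mul_le_mul_of_nonneg_left ?_
      (div_nonneg (sub_nonneg.2 (by exact_mod_cast hN)) (by positivity))
    have h1 : Real.exp ((Real.log x)⁻¹ * (66 / 100 * Real.log x)) ≤ 3 :=
      exp_le_three (by field_simp; norm_num)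
    have h2 := one_le_Zf (qq D x) (qq_two D x) (2 * (Real.log x)⁻¹)
    have h3 : (E0.card : ℝ) ≤ 1 := by exact_mod_cast hE
    have h4 : Real.exp (256 * ((2000 + 2 * (E0.card : ℝ)) / D)) ≤ Real.exp (256 * (2002 / D)) := by
      gcongr; linarith
    have h5 : 1 ≤ Real.exp (256 * ((2000 + 2 * (E0.card : ℝ)) / D)) :=
      Real.one_le_exp (by positivity)
    calc _ ≤ 3 * (BB D x ^ Fintype.card κ * (Real.exp (256 * (2002 / D)) - 1)) := by
          have := Meas.BB_nonneg D x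
          gcongr
      _ = _ := by unfold eD; ring
  · rw [mul_right_comm]
    refine (mul_le_mul_of_nonneg_right hC (Real.exp_pos _).le).trans ?_
    rw [rpow_eq_exp hx, rpow_eq_exp hx, ← Real.exp_add, Real.exp_le_exp]
    nlinarith

theorem TUG {D : ℕ} (hD : 16 ≤ D) (hκ : Fintype.card κ ≤ 4) {g : κ → ℤ}
    (hg : Function.Injective g) (hg8 : ∀ j, 2 * |g j| ≤ D) {j0 : κ} (hj0 : g j0 = 0) (a : ℕ) :
    ∀ᶠ x : ℕ in atTop, ∀ (E0 : Finset (PP D x)) (N1 N2 : ℕ)
      (y : (κ → Finset (PP D x)) → ℝ) (c : ℝ), E0.card ≤ 1 → N1 ≤ N2 → 0 < c →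
      (∀ T, |y T| ≤ c) →
      (∀ T, y T ≠ 0 → (∀ i ∈ E0, i ∉ T j0) ∧ lgs (qq D x) T ≤ 33 / 100 * Real.log x) →
      ∑ m ∈ Ioc N1 N2 with m ≡ a [MOD primorial D] ∧ ∀ i ∈ E0, qq D x i ∣ m,
          SS (qq D x) g y m ^ 2 ≤
        c ^ 2 * (((N2 : ℝ) - N1) / (primorial D * ∏ i ∈ E0, (qq D x i : ℝ)) *
          ((3 + eD D) * BB D x ^ Fintype.card κ) + (x : ℝ) ^ (6605 / 10000 : ℝ)) := by
  filter_upwards [TIG hD hκ hg hg8 hj0 a, Zf_le D, Meas.L_pos] with x h hZ hL E0 N1 N2 y c hE hN hc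
    hy hs
  have hb : ∀ T, |c⁻¹ * y T| ≤ 1 := fun T => by
    rw [abs_mul, abs_of_pos (inv_pos.2 hc), inv_mul_le_iff₀ hc, mul_one]; exact hy T
  have hs' : ∀ T, c⁻¹ * y T ≠ 0 → (∀ i ∈ E0, i ∉ T j0) ∧ lgs (qq D x) T ≤ 33 / 100 * Real.log x :=
    fun T h => hs T (right_ne_zero_of_mul h)
  have h1 := (abs_le.1 (h E0 N1 N2 _ _ hE hN hb hb hs' hs')).2
  have h2 := sum_wts_le (qq D x) (qq_two D x) _ hb (s := 2 * (Real.log x)⁻¹) (by positivity)
    fun T h => (hs' T h).2
  have h3 : Real.exp (2 * (Real.log x)⁻¹ * (33 / 100 * Real.log x)) ≤ 3 :=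
    exp_le_three (by field_simp; norm_num)
  have h4 := one_le_Zf (qq D x) (qq_two D x) (2 * (Real.log x)⁻¹)
  have h5 : ∑ T, c⁻¹ * y T * (c⁻¹ * y T) * wts (qq D x) T ≤ 3 * BB D x ^ Fintype.card κ :=
    h2.trans (by gcongr)
  have h6 : 0 ≤ ((N2 : ℝ) - N1) / (primorial D * ∏ i ∈ E0, (qq D x i : ℝ)) :=
    div_nonneg (sub_nonneg.2 (by exact_mod_cast hN)) (by positivity)
  have h7 := mul_le_mul_of_nonneg_left h5 h6
  rw [← inv_mul_le_iff₀ (by positivity), mul_sum]
  simp only [SS_smul] at h1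
  refine le_trans (le_of_eq (sum_congr rfl fun m _ => by rw [← inv_pow]; ring))
    ((sub_le_iff_le_add.1 h1).trans (by linarith))

end

theorem og_injG {D : ℕ} {g : Fin 3 → ℤ} (hg : Function.Injective g)
    (hg8 : ∀ j, g j ≠ 0 ∧ 2 * |g j| ≤ D) :
    Function.Injective (og g) ∧ ∀ j, 2 * |og g j| ≤ D := by
  refine ⟨?_, ?_⟩
  · rintro (_ | i) (_ | j) h
    · rfl
    · exact absurd h.symm (hg8 j).1
    · exact absurd h (hg8 i).1
    · exact congrArg some (hg h)
  · rintro (_ | j)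
    · simp [og]
    · exact (hg8 j).2

section
variable {D : ℕ} (hD : 16 ≤ D) {g : Fin 3 → ℤ} (hg : Function.Injective g)
  (hg8 : ∀ j, g j ≠ 0 ∧ 2 * |g j| ≤ D) (a : ℕ) (δ : ℝ) (k k' : ℕ)
include hD hg hg8

theorem pairAG {ε : ℝ} (hε : 0 < ε) : ∀ᶠ x : ℕ in atTop,
    |∑ m ∈ Ioc x (2 * x) with m ≡ a [MOD primorial D], ZZ D x g δ k m * ZZ D x g δ k' m -
      x / primorial D * ((∑ T, yk D x δ k T * yk D x δ k' T * wt (qq D x) T) * nuu D x δ k k')| ≤
      x / primorial D * BB D x ^ 4 * (eD D + ε) := by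
  filter_upwards [TIG hD (κ := Option (Fin 3)) (by simp) (og_injG hg hg8).1 (og_injG hg hg8).2
    (j0 := none) rfl a, Meas.L_pos, small_pow D (show (6605 / 10000 : ℝ) < 1 by norm_num) hε]
    with x h hl h2
  have := h ∅ x (2 * x) (tens (yk D x δ k) (cell D x δ k)) (tens (yk D x δ k') (cell D x δ k'))
    (by simp) (by omega) (abs_tens fun T => abs_fL _ _) (abs_tens fun T => abs_fL _ _)
    (fun T hT => ⟨by simp, tens_supp hl (fun _ => yk_lt hl) hT⟩)
    (fun T hT => ⟨by simp, tens_supp hl (fun _ => yk_lt hl) hT⟩)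
  simp only [SS_tens, sum_tens, notMem_empty, IsEmpty.forall_iff, implies_true, and_true,
    prod_empty, mul_one, Nat.cast_mul, Nat.cast_ofNat, Fintype.card_option, Fintype.card_fin,
    show (2 : ℝ) * x - x = x by ring] at this
  exact this.trans (by linarith)

theorem pair_primeG : ∀ᶠ x : ℕ in atTop, ∀ i : PP D x,
    |∑ m ∈ Ioc x (2 * x) with m ≡ a [MOD primorial D] ∧ qq D x i ∣ m,
        ZZ D x g δ k m * ZZ D x g δ k' m - x / primorial D / qq D x i *
        ((∑ T, dif (yk D x δ k) i T * dif (yk D x δ k') i T * wt (qq D x) T) * nuu D x δ k k')| ≤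
      x / primorial D / qq D x i * (eD D * BB D x ^ 4) + (x : ℝ) ^ (6605 / 10000 : ℝ) := by
  filter_upwards [TIG hD (κ := Option (Fin 3)) (by simp) (og_injG hg hg8).1 (og_injG hg hg8).2
    (j0 := none) rfl a, Meas.L_pos] with x h hl i
  have := h {i} x (2 * x) (tens (dif (yk D x δ k) i) (cell D x δ k))
    (tens (dif (yk D x δ k') i) (cell D x δ k'))
    (by simp) (by omega) (abs_tens (abs_dif _ _ _ _ _)) (abs_tens (abs_dif _ _ _ _ _))
    (fun T hT => ⟨by simpa using (dif_lt hl (left_ne_zero_of_mul hT)).1,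
      tens_supp hl (fun _ h => (dif_lt hl h).2) hT⟩)
    (fun T hT => ⟨by simpa using (dif_lt hl (left_ne_zero_of_mul hT)).1,
      tens_supp hl (fun _ h => (dif_lt hl h).2) hT⟩)
  simp only [SS_tens, sum_tens, mem_singleton, forall_eq, prod_singleton, Nat.cast_mul,
    Nat.cast_ofNat, Fintype.card_option, Fintype.card_fin, ← div_div,
    show (2 : ℝ) * x - x = x by ring] at this
  unfold nuu
  convert this using 3
  refine sum_congr rfl fun m hm => ?_
  have hd : (qq D x i : ℤ) ∣ m := by exact_mod_cast (mem_filter.1 hm).2.2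
  rw [ZZ, ZZ, S0_dif _ _ i hd, S0_dif _ (yk D x δ k') i hd]

theorem pairBG {ε η c : ℝ} (hε : 0 < ε) (hη : 0 < η) (hc : 0 ≤ c) (hc' : c ≤ 5) :
    ∀ᶠ x : ℕ in atTop,
    ∑ m ∈ Ioc x (2 * x) with m ≡ a [MOD primorial D],
      (∑ p ∈ m.primeFactors with η < Real.log (p : ℕ) / Real.log x ∧
          Real.log (p : ℕ) / Real.log x ≤ 339 / 1000,
        (1 - c * (Real.log (p : ℕ) / Real.log x))) * (ZZ D x g δ k m * ZZ D x g δ k' m) ≤
      x / primorial D * ((∑ i : PP D x with η < Real.log (qq D x i) / Real.log x ∧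
          Real.log (qq D x i) / Real.log x ≤ 339 / 1000,
        (1 - c * (Real.log (qq D x i) / Real.log x)) / qq D x i *
          ∑ T, dif (yk D x δ k) i T * dif (yk D x δ k') i T * wt (qq D x) T) * nuu D x δ k k') +
      x / primorial D * BB D x ^ 4 * (2 / η * eD D + ε) := by
  filter_upwards [pair_primeG hD hg hg8 a δ k k', sum_primeFactors D, Meas.L_pos, pi_bdd D,
    small_pow D (show (9995 / 10000 : ℝ) < 1 by norm_num) hε, const_le_rpow D hη,
    eventually_gt_atTop 0] with x h1 h2 hl h3 h4 h5 hx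
  have hx' : (0 : ℝ) < x := by positivity
  set u : ℕ → ℝ := fun p => Real.log p / Real.log x with hu
  set s : Finset (PP D x) := univ.filter fun i => η < u (qq D x i) ∧ u (qq D x i) ≤ 339 / 1000
  have e1 : ∑ m ∈ Ioc x (2 * x) with m ≡ a [MOD primorial D],
      (∑ p ∈ m.primeFactors with η < u p ∧ u p ≤ 339 / 1000, (1 - c * u p)) *
        (ZZ D x g δ k m * ZZ D x g δ k' m) = ∑ i ∈ s, (1 - c * u (qq D x i)) *
      ∑ m ∈ Ioc x (2 * x) with m ≡ a [MOD primorial D] ∧ qq D x i ∣ m,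
        ZZ D x g δ k m * ZZ D x g δ k' m := by
    simp only [← filter_filter, sum_filter (fun m => qq D x _ ∣ m), mul_sum]
    rw [sum_comm]
    refine sum_congr rfl fun m hm => ?_
    have hm0 : x < m := (mem_Ioc.1 (mem_filter.1 hm).1).1
    rw [filter_filter, h2 m (fun p => η < u p ∧ u p ≤ 339 / 1000) _ (by omega) fun p hp h => ?_,
      sum_mul]
    · exact sum_congr rfl fun i _ => by split_ifs <;> simp
    · have hp0 : (0 : ℝ) < p := by exact_mod_cast (Nat.prime_of_mem_primeFactors hp).pos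
      have b1 : (x : ℝ) ^ η < p := by
        rw [rpow_eq_exp hx, ← Real.lt_log_iff_exp_lt hp0]; exact (lt_div_iff₀ hl).1 h.1
      have b2 : (p : ℝ) ≤ x := by
        rw [← Real.log_le_log_iff hp0 hx']
        have := (div_le_iff₀ hl).1 h.2; linarith
      exact ⟨by exact_mod_cast h5.trans_lt b1, by exact_mod_cast b2⟩
  have h6 : ∑ i ∈ s, (1 : ℝ) / qq D x i ≤ 2 / η := by
    rw [le_div_iff₀ hη, sum_mul]
    refine le_trans (sum_le_sum fun i hi => ?_) (le_trans (sum_le_sum_of_subset_of_nonneg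
      (fun i hi => mem_filter.2 ⟨mem_univ _, (mem_filter.1 hi).2.2.trans (by norm_num)⟩)
      fun i _ _ => ((conv_pi D).1 x i (mem_univ _)).1) h3)
    beta_reduce
    rw [mul_comm (qq D x i : ℝ), ← div_div, one_div, mul_comm, ← div_eq_mul_inv]
    gcongr
    exact (mem_filter.1 hi).2.1.le
  have h7 := card_small D x hl (b := 339 / 1000)
    (fun i => η < u (qq D x i) ∧ u (qq D x i) ≤ 339 / 1000) fun i h => h.2
  have h8 : (x : ℝ) ^ (339 / 1000 : ℝ) * (x : ℝ) ^ (6605 / 10000 : ℝ) =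
      (x : ℝ) ^ (9995 / 10000 : ℝ) := by rw [← Real.rpow_add hx']; norm_num
  have h9 := eD_nonneg D
  have h10 := Meas.BB_nonneg D x
  rw [e1]
  calc _ ≤ ∑ i ∈ s, (x / primorial D * ((1 - c * u (qq D x i)) / qq D x i *
          (∑ T, dif (yk D x δ k) i T * dif (yk D x δ k') i T * wt (qq D x) T) * nuu D x δ k k') +
          (x / primorial D * (eD D * BB D x ^ 4) * (1 / qq D x i) +
            (x : ℝ) ^ (6605 / 10000 : ℝ))) := by
        refine sum_le_sum fun i hi => ?_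
        obtain ⟨a1, a2⟩ := (mem_filter.1 hi).2
        have a7 : |1 - c * u (qq D x i)| ≤ 1 := abs_le.2 ⟨by nlinarith, by nlinarith⟩
        have a8 := (le_abs_self _).trans ((abs_mul _ _).le.trans
          (mul_le_mul a7 (h1 i) (abs_nonneg _) zero_le_one))
        rw [mul_sub, sub_le_iff_le_add'] at a8
        exact a8.trans (le_of_eq (by ring))
    _ ≤ _ := by
        rw [sum_add_distrib, sum_add_distrib, ← mul_sum, ← sum_mul, ← mul_sum, sum_const,
          nsmul_eq_mul]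
        refine add_le_add le_rfl ?_
        have b1 := mul_le_mul_of_nonneg_left h6
          (show 0 ≤ x / primorial D * (eD D * BB D x ^ 4) by positivity)
        have b2 := mul_le_mul_of_nonneg_right h7
          (show 0 ≤ (x : ℝ) ^ (6605 / 10000 : ℝ) by positivity)
        rw [h8] at b2
        exact (add_le_add b1 (b2.trans h4)).trans (le_of_eq (by ring))

theorem Tbar_approxG : ∀ᶠ x : ℕ in atTop, ∀ y y' : (Fin 3 → Finset (PP D x)) → ℝ,
    (∀ T, |y T| ≤ 1) → (∀ T, |y' T| ≤ 1) →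
    (∀ T U, y T ≠ 0 → y' U ≠ 0 → lgs (qq D x) T + lgs (qq D x) U ≤ Real.log x) →
    |Tbar (qq D x) g y y' - ∑ T, y T * y' T * wts (qq D x) T| ≤ eD D * BB D x ^ 3 := by
  filter_upwards [Zf_le D, Meas.L_pos] with x hZ hl y y' hy hy' hs
  refine (perturb (qq D x) (qq_two D x) (fun i => ubar (qq D x i) g)
    (fun i => 2000 / (qq D x i : ℝ) ^ 2) (fun i => ubar_approxG
      (hD.trans_lt (gr_gt D x i)) (by simp) hg fun j =>
      ⟨(hg8 j).1, lt_of_shift (gr_gt D x i) (hg8 j).2⟩) (s := (Real.log x)⁻¹) (by positivity)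
    y y' hy hy' hs).trans ?_
  have h1 : Real.exp ((Real.log x)⁻¹ * Real.log x) ≤ 3 := exp_le_three (by field_simp; rfl)
  have h2 := one_le_Zf (qq D x) (qq_two D x) (2 * (Real.log x)⁻¹)
  have h3 := sum_inv_sq_le (qq D x) (qq_inj D x) (show 0 < D by omega) (gr_gt D x)
  have h4 : ∑ i, (2000 : ℝ) / (qq D x i : ℝ) ^ 2 ≤ 2002 / D := by
    simp only [div_eq_mul_one_div (2000 : ℝ), div_eq_mul_one_div (2002 : ℝ), ← mul_sum]
    gcongr; norm_num
  have h5 : 0 ≤ ∑ i, (2000 : ℝ) / (qq D x i : ℝ) ^ 2 := by positivity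
  have h6 : 1 ≤ Real.exp (4 ^ Fintype.card (Fin 3) * ∑ i, 2000 / (qq D x i : ℝ) ^ 2) :=
    Real.one_le_exp (by positivity)
  calc _ ≤ 3 * (BB D x ^ Fintype.card (Fin 3) * (Real.exp (256 * (2002 / D)) - 1)) := by
        have := Meas.BB_nonneg D x
        gcongr
        norm_num
    _ = _ := by unfold eD; simp; ring

theorem pairCG (ha : Nat.Coprime a (primorial D)) {ω : ℝ → ℝ} (hω : Good ω) {ε η : ℝ}
    (hε : 0 < ε) (hη : 0 < η) (hη' : η ≤ 1 / 1000) (hδ : 0 < δ)
    (hlev : (k + 1) * δ + (k' + 1) * δ ≤ 499 / 1000) : ∀ᶠ x : ℕ in atTop,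
    ∑ m ∈ Ioc x (2 * x) with m ≡ a [MOD primorial D],
      aw η x ω m * (ZZ D x g δ k m * ZZ D x g δ k' m) ≤
      x / primorial D * BB D x * ((∫ v in (0 : ℝ)..(662 / 1000), ω v * HH (Lk δ k) v) + ε) *
        nuu D x δ k k' + x / primorial D * BB D x ^ 4 * (21 * eD D + ε) := by
  classical
  have hW : (0 : ℝ) < primorial D := by exact_mod_cast primorial_pos D
  have hV := Meas.V_pos D
  set V := ∏ p ∈ Nat.primesLE D, (1 - (p : ℝ)⁻¹) with hVd
  set K1 : ℝ := 20 * (3 * 2 ^ ⌈1 / η⌉₊) ^ 2 with hK1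
  have hK0 : 0 < K1 := by positivity
  have hLk : ∀ k : ℕ, Lk δ k ≤ 33 / 100 := fun k => sub_le_self _ (by positivity)
  have hL1 : ∀ k : ℕ, Lk δ k ≤ 1 := fun k => (hLk k).trans (by norm_num)
  filter_upwards [bvG D hD hη hη (show 0 < ε * V ^ 2 / (primorial D * K1) by positivity) g hg hg8 a,
    Tbar_approxG hD hg hg8, F3 D a ha hω (hL1 k) hη hε, F3 D a ha hω (hL1 k) hη one_pos,
    F3 D a ha hω (hL1 k') hη one_pos, small_cof hη, Meas.L_pos, Meas.BB_pos D, Zf_le D,
    eventually_gt_atTop 1, const_le_rpow 2 (show (0 : ℝ) < 338 / 1000 by norm_num)]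
    with x h1 h2 h3 h4 h5 h6 hl hB hZ hx h7
  have hx' : (1 : ℝ) < x := by exact_mod_cast hx
  have hx0 : (0 : ℝ) < x := by linarith
  set S : ℕ → ℕ → ℝ := fun k m => S1 (qq D x) (Real.log x) (fL (Lk δ k)) m with hS
  set P : ℕ → Finset ℕ := fun m => (Ioc (lo η x (box η m)) (hi η x (box η m))).filter
    fun p => p.Prime ∧ p * m ≡ a [MOD primorial D] with hP
  set v : ℕ → ℝ := fun m => Real.log m / Real.log x with hv
  have hv0 : ∀ m, 0 ≤ v m := fun m => div_nonneg (Real.log_natCast_nonneg m) hl.le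
  have hv1 : ∀ m : ℕ, 0 < m → (m : ℝ) ≤ (x : ℝ) ^ (662 / 1000 : ℝ) → v m ≤ 662 / 1000 :=
    fun m hm h => by
      rw [div_le_iff₀ hl, ← Real.log_rpow hx0]
      exact Real.log_le_log (by positivity) h
  have hlev' : ∀ T U, cell D x δ k T ≠ 0 → cell D x δ k' U ≠ 0 →
      lgs (qq D x) T + lgs (qq D x) U ≤ (1 / 2 - η) * Real.log x := fun T U a1 a2 => by
    nlinarith [cell_lt hl a1, cell_lt hl a2]
  have hSb : ∀ k, ∀ m ∈ Icc 1 x, rough η x m → |S k m| ≤ 3 * 2 ^ ⌈1 / η⌉₊ * BB D x := by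
    intro k m hm hr
    refine (abs_S0_le (qq D x) (qq_two D x) (yk D x δ k) (fun T => abs_fL _ _)
      (s := 2 * (Real.log x)⁻¹) (Λ := 1 / 2 * Real.log x) (by positivity)
      (fun T hT => by nlinarith [yk_lt hl hT, hLk k]) m).trans ?_
    have a5 : Real.exp (2 * (Real.log x)⁻¹ * (1 / 2 * Real.log x)) ≤ 3 :=
      exp_le_three (by field_simp; norm_num)
    have a6 := (card_dvd_le (qq D x) (gr_prime D x) (qq_inj D x)
      (show m ≠ 0 by have := (mem_Icc.1 hm).1; omega)).trans (card_rough_le hη hx hm hr)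
    have a8 := one_le_Zf (qq D x) (qq_two D x) (2 * (Real.log x)⁻¹)
    rw [mul_assoc 3]
    gcongr
    norm_num
  have b1 := h1 (cell D x δ k) (cell D x δ k') (fun m => if m ∈ Icc 1 x ∧ rough η x m ∧
      (m : ℝ) ≤ (x : ℝ) ^ (662 / 1000 : ℝ) then ω (v m) * (S k m * S k' m) / (K1 * BB D x ^ 2)
      else 0) (lo η x) (hi η x) (abs_cell _ _ _ _) (abs_cell _ _ _ _) hlev'
    (fun m => by
      split_ifs with h
      · rw [abs_div, abs_of_pos (show 0 < K1 * BB D x ^ 2 by positivity),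
          div_le_one (by positivity), abs_mul, abs_mul]
        have a0 := hv1 m (mem_Icc.1 h.1).1 h.2.2
        have a1 := hω.abs_le (by linarith [hv0 m]) a0
        rw [abs_of_nonneg (hv0 m)] at a1
        have a2 : |ω (v m)| ≤ 20 := by linarith
        refine (mul_le_mul a2 (mul_le_mul (hSb k m h.1 h.2.1) (hSb k' m h.1 h.2.1) (abs_nonneg _)
          (by positivity)) (by positivity) (by norm_num)).trans (le_of_eq ?_)
        rw [hK1]; ring
      · simp)
    (fun m hm => by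
      have h := not_not.1 fun h => hm (if_neg h)
      exact ⟨h.2.1.1, h.2.2.trans (Real.rpow_le_rpow_of_exponent_le hx'.le (by linarith)),
        h.2.1.2⟩)
    (fun j => by
      refine ⟨?_, (Nat.floor_le (by positivity)).trans (by gcongr; linarith)⟩
      have a1 := (le_max_left _ _).trans_lt (Nat.lt_floor_add_one
        (max ((x : ℝ) ^ (339 / 1000 : ℝ)) (x * Real.exp (-(j * η)))))
      have a2 : (x : ℝ) ^ η ≤ (x : ℝ) ^ (1 / 1000 : ℝ) :=
        Real.rpow_le_rpow_of_exponent_le hx'.le hη'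
      have a3 : (x : ℝ) ^ (339 / 1000 : ℝ) = (x : ℝ) ^ (338 / 1000 : ℝ) * (x : ℝ) ^ (1 / 1000 : ℝ) := by
        rw [← Real.rpow_add hx0]; norm_num
      have a4 : 1 ≤ (x : ℝ) ^ (1 / 1000 : ℝ) := Real.one_le_rpow hx'.le (by norm_num)
      unfold lo
      nlinarith)
  have b2 := h2 _ _ (abs_cell D x δ k) (abs_cell D x δ k') fun T U a1 a2 =>
    (hlev' T U a1 a2).trans (by nlinarith)
  set G : ℕ → ℕ → ℝ := fun k k' => ∑ m ∈ Icc 1 x with rough η x m, ∑ p ∈ P m,
    Real.log p / Real.log x * ω (v m) * (S k m * S k' m) with hG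
  have b3 : |G k k'| ≤ x / primorial D * BB D x * 21 := by
    have a1 := int_le hω (Lk δ k)
    have a2 := int_le hω (Lk δ k')
    have a3 : 0 ≤ x / primorial D * BB D x := by positivity
    refine le_trans ?_ (show (_ + _) / 2 ≤ _ by
      have := add_le_add (h4.trans (mul_le_mul_of_nonneg_left (add_le_add a1 le_rfl) a3))
        (h5.trans (mul_le_mul_of_nonneg_left (add_le_add a2 le_rfl) a3))
      exact (div_le_div_of_nonneg_right this zero_le_two).trans (le_of_eq (by ring)))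
    rw [← sum_add_distrib, sum_div]
    refine (abs_sum_le_sum_abs _ _).trans (sum_le_sum fun m hm => ?_)
    rw [← sum_add_distrib, sum_div]
    refine (abs_sum_le_sum_abs _ _).trans (sum_le_sum fun p hp => ?_)
    have hm0 := (mem_Icc.1 (mem_filter.1 hm).1).1
    have a4 := mul_nonneg (hv0 p) (hω.nonneg _ (hv0 m) (hv1 m hm0 (h6 m p hm0 (mem_filter.1 hp).1)))
    rw [abs_mul, abs_of_nonneg a4, ← mul_add, mul_div_assoc]
    refine mul_le_mul_of_nonneg_left (abs_le.2 ⟨?_, ?_⟩) a4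
    · nlinarith [sq_nonneg (S k m + S k' m)]
    · nlinarith [sq_nonneg (S k m - S k' m)]
  have b4 : G k k' * nuu D x δ k k' ≤ x / primorial D * BB D x *
      ((∫ v in (0 : ℝ)..(662 / 1000), ω v * HH (Lk δ k) v) + ε) * nuu D x δ k k' := by
    by_cases h : k = k'
    · subst h
      simp only [sq] at h3
      exact mul_le_mul_of_nonneg_right h3 (nuu_nonneg _ _ _ _)
    · simp [nuu_ne D x hδ h]
  set R := ∑ m ∈ Icc 1 x, (if m ∈ Icc 1 x ∧ rough η x m ∧ (m : ℝ) ≤ (x : ℝ) ^ (662 / 1000 : ℝ) then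
    ω (v m) * (S k m * S k' m) / (K1 * BB D x ^ 2) else 0) * ∑ p ∈ P m, Real.log p *
      (SS (qq D x) g (cell D x δ k) (p * m : ℕ) * SS (qq D x) g (cell D x δ k') (p * m : ℕ) -
        Tbar (qq D x) g (cell D x δ k) (cell D x δ k')) with hR
  have e1 : ∑ m ∈ Ioc x (2 * x) with m ≡ a [MOD primorial D],
      aw η x ω m * (ZZ D x g δ k m * ZZ D x g δ k' m) = K1 * BB D x ^ 2 / Real.log x * R +
      G k k' * Tbar (qq D x) g (cell D x δ k) (cell D x δ k') := by
    rw [aw_reindex hη, hR, hG, mul_sum, sum_mul, sum_filter, sum_filter, ← sum_add_distrib]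
    refine sum_congr rfl fun m hm => ?_
    by_cases hr : rough η x m
    swap
    · simp [hr]
    rw [if_pos hr, if_pos hr, mul_sum, mul_sum, sum_mul, ← sum_add_distrib]
    refine sum_congr rfl fun p hp => ?_
    have hm0 := (mem_Icc.1 hm).1
    obtain ⟨a1, a2, -⟩ := mem_filter.1 hp
    have a3 : 339 / 1000 * Real.log x < Real.log p := by
      rw [← Real.log_rpow hx0]
      exact Real.log_lt_log (by positivity) (box_mem hη hm0 a1).1
    have a4 : ∀ k, S0 (qq D x) (yk D x δ k) (p * m : ℕ) = S k m := fun k =>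
      S0_mul_prime _ (gr_prime D x) _ a2 (fun T hT => by nlinarith [yk_lt hl hT, hLk k]) m
    rw [if_pos ⟨hm, hr, h6 m p hm0 a1⟩, ZZ, ZZ, a4, a4, show Real.log m / Real.log x = v m from rfl]
    field_simp
    ring
  have b5 : K1 * BB D x ^ 2 / Real.log x * R ≤ x / primorial D * BB D x ^ 4 * ε := by
    refine (mul_le_mul_of_nonneg_left ((le_abs_self _).trans b1) (by positivity)).trans
      (le_of_eq ?_)
    unfold BB
    rw [← hVd]
    field_simp
  have b6 := (le_abs_self _).trans ((abs_mul _ _).le.trans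
    (mul_le_mul b3 b2 (abs_nonneg _) (by positivity)))
  rw [e1]
  unfold nuu at b4 ⊢
  nlinarith

theorem pairG (ha : Nat.Coprime a (primorial D)) {ω : ℝ → ℝ} (hω : Good ω) {ε η Λ : ℝ}
    (hε : 0 < ε) (hη : 0 < η) (hη' : η ≤ 1 / 1000) (hδ : 0 < δ) (hΛ : 0 ≤ Λ) (hΛ' : Λ ≤ 4)
    (hlev : ω = (fun _ => 0) ∨ (k + 1) * δ + (k' + 1) * δ ≤ 499 / 1000) : ∀ᶠ x : ℕ in atTop,
    ∑ m ∈ Ioc x (2 * x) with m ≡ a [MOD primorial D],
      TT η x Λ ω m * (ZZ D x g δ k m * ZZ D x g δ k' m) ≤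
      x / primorial D * BB D x * (cost η Λ ω (Lk δ k) + 7 * ε) * nuu D x δ k k' +
        x / primorial D * BB D x ^ 4 * ((26 + 2 / η) * eD D + 7 * ε) := by
  have hLk : Lk δ k ≤ 33 / 100 := sub_le_self _ (by positivity)
  have he := eD_nonneg D
  have hC : ∀ᶠ x : ℕ in atTop, ∑ m ∈ Ioc x (2 * x) with m ≡ a [MOD primorial D],
      aw η x ω m * (ZZ D x g δ k m * ZZ D x g δ k' m) ≤
      x / primorial D * BB D x * ((∫ v in (0 : ℝ)..(662 / 1000), ω v * HH (Lk δ k) v) + ε) *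
        nuu D x δ k k' + x / primorial D * BB D x ^ 4 * (21 * eD D + ε) := by
    rcases hlev with rfl | h
    · refine Eventually.of_forall fun x => ?_
      have h1 : 0 ≤ nuu D x δ k k' := by
        by_cases h : k = k'
        · exact h ▸ nuu_nonneg _ _ _ _
        · exact (nuu_ne D x hδ h).ge
      have := Meas.BB_nonneg D x
      simp only [aw, mul_zero, sum_const_zero, zero_mul, intervalIntegral.integral_zero]
      positivity
    · exact pairCG hD hg hg8 a δ k k' ha hω hε hη hη' hδ h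
  filter_upwards [hC, pairAG hD hg hg8 a δ k k' hε,
    pairBG hD hg hg8 a δ k k' hε hη (show 0 ≤ 1 + Λ by linarith) (by linarith),
    (F1 D (hLk.trans (by norm_num))).eventually_le_const (lt_add_of_pos_right _ hε),
    F2 D (hLk.trans (by norm_num)) hη (by linarith) hε (show 0 ≤ 1 + Λ by linarith) (by linarith),
    Meas.BB_pos D] with x h1 h2 h3 h4 h5 hB
  simp only [TT, add_mul _ _ (ZZ D x g δ k _ * _), sum_add_distrib]
  rw [← sum_add_distrib]
  simp only [← add_mul _ _ (ZZ D x g δ k _ * _)]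
  rw [← mul_sum]
  have h6 := mul_le_mul_of_nonneg_left (sub_le_iff_le_add.1 (abs_le.1 h2).2)
    (show 0 ≤ 1 + Λ by linarith)
  have hX : 0 ≤ (x : ℝ) / primorial D := by positivity
  have h7 : (1 + Λ) * (x / primorial D * BB D x ^ 4 * (eD D + ε)) ≤
      5 * (x / primorial D * BB D x ^ 4 * (eD D + ε)) := by gcongr; linarith
  by_cases h : k = k'
  · subst h
    have h8 := mul_nonneg hX (nuu_nonneg D x δ k)
    rw [div_le_iff₀ hB] at h4
    have h9 := mul_le_mul_of_nonneg_left h5 h8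
    have h10 := mul_le_mul_of_nonneg_left h4 (mul_nonneg h8 (show 0 ≤ 1 + Λ by linarith))
    have h11 : x / primorial D * nuu D x δ k k * BB D x * ε * Λ ≤
        x / primorial D * nuu D x δ k k * BB D x * ε * 4 := by gcongr
    unfold cost
    unfold yk at h3 h6
    nlinarith
  · simp only [nuu_ne D x hδ h, mul_zero, zero_add, add_zero] at h1 h3 h6 ⊢
    nlinarith

end

theorem crudeG (D : ℕ) {g : Option (Fin 3) → ℤ} (hg8 : ∀ j, 2 * |g j| ≤ D)
    {b : ℝ} (hb : 0 < b) :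
    ∀ᶠ x : ℕ in atTop, ∀ m ∈ Ioc x (2 * x), ∀ y : (Option (Fin 3) → Finset (PP D x)) → ℝ,
      (∀ T, |y T| ≤ 1) → (∀ T, y T ≠ 0 → lgs (qq D x) T ≤ 33 / 100 * Real.log x) →
      |SS (qq D x) g y m| ≤ (x : ℝ) ^ (16 * b) := by
  obtain ⟨C, hC, h⟩ := pow_card_le 2 b one_le_two hb
  filter_upwards [Zf_le D, Meas.L_pos, eventually_gt_atTop D, const_le_rpow (C * 3 ^ b / b) hb,
    const_le_rpow 3 (show 0 < 4 * b by positivity)] with x hZ hl hx h1 h2 m hm y hy hs
  have hx' : (0 : ℝ) < x := by exact_mod_cast (Nat.zero_le D).trans_lt hx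
  refine (abs_SS_le (qq D x) (qq_two D x) g y hy (s := 2 * (Real.log x)⁻¹) (by positivity)
    hs m).trans ?_
  have h3 : Real.exp (2 * (Real.log x)⁻¹ * (33 / 100 * Real.log x)) ≤ 3 :=
    exp_le_three (by field_simp; norm_num)
  have h4 := one_le_Zf (qq D x) (qq_two D x) (2 * (Real.log x)⁻¹)
  have h5 : Zf (qq D x) (2 * (Real.log x)⁻¹) ≤ (x : ℝ) ^ b / b :=
    hZ.trans ((BB_le D x).trans (Real.log_le_rpow_div hx'.le hb))
  refine (mul_le_mul (h3.trans h2) (prod_le_prod (g := fun _ => (x : ℝ) ^ (3 * b))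
    (fun _ _ => by positivity) fun j _ => ?_) (by positivity) (by positivity)).trans (le_of_eq ?_)
  · obtain ⟨a1, a2⟩ := mem_Ioc.1 hm
    have a3 := neg_abs_le (g j)
    have a4 := le_abs_self (g j)
    have a8 := hg8 j
    obtain ⟨n, hn⟩ := Int.eq_ofNat_of_zero_le (show 0 ≤ (m : ℤ) + g j by omega)
    have hn0 : n ≠ 0 := by omega
    have a5 : ((∏ p ∈ n.primeFactors, p : ℕ) : ℝ) ≤ 3 * x := by
      have := Nat.le_of_dvd (Nat.pos_of_ne_zero hn0) (Nat.prod_primeFactors_dvd n)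
      exact_mod_cast (by omega : ∏ p ∈ n.primeFactors, p ≤ 3 * x)
    have a6 := h n.primeFactors fun p hp => (Nat.prime_of_mem_primeFactors hp).two_le
    rw [← Nat.cast_prod] at a6
    have a7 := card_dvd_le (qq D x) (gr_prime D x) (qq_inj D x) hn0
    rw [hn]
    calc _ ≤ C * (3 * x : ℝ) ^ b * ((x : ℝ) ^ b / b) := by
          gcongr
          exact (pow_le_pow_right₀ one_le_two a7).trans (a6.trans (by gcongr))
      _ = C * 3 ^ b / b * ((x : ℝ) ^ b * (x : ℝ) ^ b) := by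
          rw [Real.mul_rpow (by norm_num) hx'.le]; ring
      _ ≤ (x : ℝ) ^ b * ((x : ℝ) ^ b * (x : ℝ) ^ b) := by gcongr
      _ = _ := by rw [← Real.rpow_add hx', ← Real.rpow_add hx']; ring_nf
  · rw [prod_const, ← Real.rpow_mul_natCast hx'.le, ← Real.rpow_add hx']
    simp only [card_univ, Fintype.card_option, Fintype.card_fin]
    push_cast; ring_nf

theorem badG {D : ℕ} (hD : 16 ≤ D) {g : Fin 3 → ℤ} (hg : Function.Injective g)
    (hg8 : ∀ j, g j ≠ 0 ∧ 2 * |g j| ≤ D)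
    {a : ℕ} (ha : Nat.Coprime a (primorial D)) (δ : ℝ) (k : ℕ)
    {η ε : ℝ} (hη : 0 < η) (hη' : η ≤ 1 / 1000) (hε : 0 < ε) : ∀ᶠ x : ℕ in atTop,
    ∑ m ∈ Ioc x (2 * x) with m ≡ a [MOD primorial D], err η x m * ZZ D x g δ k m ^ 2 ≤
      x / primorial D * BB D x ^ 4 * (57 * η * (3 + eD D) + 32 * ε) := by
  classical
  filter_upwards [TUG hD (κ := Option (Fin 3)) (by simp) (og_injG hg hg8).1 (og_injG hg hg8).2
    (j0 := none) rfl a, Meas.L_pos, small_pow D (show (6605 / 10000 : ℝ) < 1 by norm_num) hε,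
    small_pow D (show (6615 / 10000 : ℝ) < 1 by norm_num) hε,
    small_pow D (show 1 - η / 2 < 1 by linarith) hε, count_sq hη, sum_primeFactors D, pi_bdd D,
    crudeG D (og_injG hg hg8).2 (show 0 < η / 64 by positivity), eventually_gt_atTop 0,
    tendsto_natCast_atTop_atTop.eventually_ge_atTop (1 / η)]
    with x h hl s1 s2 s3 h1 h2 h3 h4 hx h5
  have hx' : (0 : ℝ) < x := by positivity
  have hW : (0 : ℝ) < primorial D := by exact_mod_cast primorial_pos D
  have hB := Meas.BB_nonneg D x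
  have he := eD_nonneg D
  set M := (3 + eD D) * BB D x ^ 4 with hM
  have hM0 : 0 ≤ M := by positivity
  have hI : ∀ N1 N2 : ℕ, N1 ≤ N2 → ∀ c : ℝ, (N2 : ℝ) - N1 ≤ c * x →
      ∑ m ∈ Ioc N1 N2 with m ≡ a [MOD primorial D], ZZ D x g δ k m ^ 2 ≤
        c * (x / primorial D * M) + x / primorial D * BB D x ^ 4 * ε := by
    intro N1 N2 hN c hc
    have := h ∅ N1 N2 (tens (yk D x δ k) (cell D x δ k)) 1 (by simp) hN one_pos
      (abs_tens fun T => abs_fL _ _) fun T hT => ⟨by simp, tens_supp hl (fun _ => yk_lt hl) hT⟩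
    simp only [SS_tens, notMem_empty, IsEmpty.forall_iff, implies_true, and_true,
      prod_empty, mul_one, Fintype.card_option, Fintype.card_fin, one_pow, one_mul] at this
    refine this.trans (add_le_add ?_ s1)
    rw [← mul_assoc c, ← mul_div_assoc]
    exact mul_le_mul_of_nonneg_right (div_le_div_of_nonneg_right hc hW.le) hM0
  set u : ℕ → ℝ := fun p => Real.log p / Real.log x with hu
  set s : Finset (PP D x) := univ.filter fun i => u (qq D x i) ≤ η
  have b1 : ∑ m ∈ Ioc x (2 * x) with m ≡ a [MOD primorial D],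
      (∑ p ∈ m.primeFactors with u p ≤ η, (1 : ℝ)) * ZZ D x g δ k m ^ 2 ≤
      50 * η * (x / primorial D * M) + 25 * (x / primorial D * BB D x ^ 4 * ε) := by
    have e1 : ∑ m ∈ Ioc x (2 * x) with m ≡ a [MOD primorial D],
        (∑ p ∈ m.primeFactors with u p ≤ η, (1 : ℝ)) * ZZ D x g δ k m ^ 2 = ∑ i ∈ s,
        ∑ m ∈ Ioc x (2 * x) with m ≡ a [MOD primorial D] ∧ qq D x i ∣ m, ZZ D x g δ k m ^ 2 := by
      simp only [← filter_filter, sum_filter (fun m => qq D x _ ∣ m)]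
      rw [sum_comm]
      refine sum_congr rfl fun m hm => ?_
      have hm0 : x < m := (mem_Ioc.1 (mem_filter.1 hm).1).1
      rw [h2 m (fun p => u p ≤ η) _ (by omega) fun p hp h => ?_, sum_mul]
      · exact sum_congr rfl fun i _ => by split_ifs <;> simp
      · have hp' := Nat.prime_of_mem_primeFactors hp
        have hp0 : (0 : ℝ) < p := by exact_mod_cast hp'.pos
        have b2 : (p : ℝ) ≤ x := by
          rw [← Real.log_le_log_iff hp0 hx']
          have := (div_le_iff₀ hl).1 h; nlinarith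
        refine ⟨not_le.1 fun h' => ?_, by exact_mod_cast b2⟩
        have b3 := hp'.dvd_primorial_iff.2 h'
        exact hp'.one_lt.ne' (Nat.eq_one_of_dvd_coprimes ha ((((mem_filter.1 hm).2.of_dvd
          b3).dvd_iff dvd_rfl).1 (Nat.dvd_of_mem_primeFactors hp)) b3)
    have h7 := card_small D x hl (b := 1 / 1000) (fun i => u (qq D x i) ≤ η) fun i h => h.trans hη'
    have h8 : (x : ℝ) ^ (1 / 1000 : ℝ) * (x : ℝ) ^ (6605 / 10000 : ℝ) =
        (x : ℝ) ^ (6615 / 10000 : ℝ) := by rw [← Real.rpow_add hx']; norm_num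
    rw [e1]
    refine (sum_le_sum (g := fun i => 25 * η * (x / primorial D * M) *
      (Real.log (qq D x i) / (qq D x i * Real.log x)) + 25 * (x : ℝ) ^ (6605 / 10000 : ℝ))
      fun i hi => ?_).trans ?_
    · have a1 : u (qq D x i) ≤ η := (mem_filter.1 hi).2
      have a2 : (1 : ℝ) < qq D x i := by have := Meas.two_le D x i; linarith
      have a3 : 0 < u (qq D x i) := div_pos (Real.log_pos a2) hl
      have := h {i} x (2 * x) (tens (dif (yk D x δ k) i) (cell D x δ k)) (5 * u (qq D x i))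
        (by simp) (by omega) (by positivity) (abs_tens fun T => by
          unfold dif; split_ifs with h
          · simp only [abs_zero]; positivity
          · refine (fL_lip _ _ _).trans (le_of_eq ?_)
            rw [abs_sub_comm, ← sub_div, lg, lg, sum_insert h, add_sub_cancel_right,
              abs_of_pos a3])
        fun T hT => ⟨by simpa using (dif_lt hl (left_ne_zero_of_mul hT)).1,
          tens_supp hl (fun _ h => (dif_lt hl h).2) hT⟩
      simp only [SS_tens, mem_singleton, forall_eq, prod_singleton, Nat.cast_mul,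
        Nat.cast_ofNat, Fintype.card_option, Fintype.card_fin, ← div_div,
        show (2 : ℝ) * x - x = x by ring] at this
      refine (le_of_eq (sum_congr rfl fun m hm => ?_)).trans (this.trans ?_)
      · rw [ZZ, S0_dif _ _ i (by exact_mod_cast (mem_filter.1 hm).2.2)]
      · rw [mul_add, show Real.log (qq D x i) / (qq D x i * Real.log x) = u (qq D x i) / qq D x i by
          simp only [hu]; field_simp]
        refine add_le_add (le_trans (le_of_eq (show _ = 25 * u (qq D x i) * (x / primorial D * M) *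
          (u (qq D x i) / qq D x i) by rw [hM]; ring)) (by gcongr)) ?_
        gcongr; nlinarith
    · rw [sum_add_distrib, ← mul_sum, sum_const, nsmul_eq_mul]
      have a1 := (sum_le_sum_of_subset_of_nonneg (s := s) (fun i hi => mem_filter.2
        ⟨mem_univ _, (mem_filter.1 hi).2.trans (by linarith)⟩)
        fun i _ _ => ((conv_pi D).1 x i (mem_univ _)).1).trans h3
      have a2 := mul_le_mul_of_nonneg_left a1
        (show 0 ≤ 25 * η * (x / primorial D * M) by positivity)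
      have a3 := mul_le_mul_of_nonneg_right h7
        (show 0 ≤ (x : ℝ) ^ (6605 / 10000 : ℝ) by positivity)
      exact add_le_add (a2.trans (le_of_eq (by ring))) (by linarith)
  have b2 : ∑ m ∈ Ioc x (2 * x) with m ≡ a [MOD primorial D],
      (if ∃ p : ℕ, p.Prime ∧ η < u p ∧ p ^ 2 ∣ m then (1 : ℝ) else 0) * ZZ D x g δ k m ^ 2 ≤
      4 * (x / primorial D * BB D x ^ 4 * ε) := by
    refine (sum_le_sum_of_subset_of_nonneg (filter_subset _ _) fun _ _ _ => by positivity).trans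
      ((sum_le_sum (g := fun m => (if ∃ p : ℕ, p.Prime ∧ η < u p ∧ p ^ 2 ∣ m then (1 : ℝ) else 0) *
        (x : ℝ) ^ (η / 2)) fun m hm => ?_).trans ?_)
    · have := h4 m hm _ (abs_tens (δ := δ) (k := k) (y0 := yk D x δ k) fun T => abs_fL _ _)
        fun T hT => tens_supp hl (fun _ => yk_lt hl) hT
      rw [SS_tens] at this
      refine mul_le_mul_of_nonneg_left ?_ (by positivity)
      rw [← sq_abs]
      refine (pow_le_pow_left₀ (abs_nonneg _) this 2).trans (le_of_eq ?_)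
      rw [← Real.rpow_mul_natCast hx'.le]; push_cast; ring_nf
    · rw [← sum_mul]
      refine (mul_le_mul_of_nonneg_right h1 (by positivity)).trans ?_
      rw [mul_assoc, ← Real.rpow_add hx', show 1 - η + η / 2 = 1 - η / 2 by ring]
      linarith
  have b3 : ∑ m ∈ Ioc x (2 * x) with m ≡ a [MOD primorial D],
      (if m ≤ ⌊x * Real.exp η⌋₊ then (1 : ℝ) else 0) * ZZ D x g δ k m ^ 2 ≤
      2 * η * (x / primorial D * M) + x / primorial D * BB D x ^ 4 * ε := by
    have a1 := Real.add_one_le_exp η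
    have a2 : Real.exp η ≤ 1 + 2 * η := by
      have := Real.add_one_le_exp (-η)
      rw [Real.exp_neg, le_inv_comm₀ (by linarith) (Real.exp_pos _)] at this
      refine this.trans ?_
      rw [inv_le_iff_one_le_mul₀ (by linarith)]; nlinarith
    refine le_trans ?_ (hI x ⌊x * Real.exp η⌋₊ (Nat.le_floor (by nlinarith)) _ (by
      have := Nat.floor_le (show 0 ≤ x * Real.exp η by positivity); nlinarith))
    simp only [ite_mul, one_mul, zero_mul]
    rw [← sum_filter]
    refine sum_le_sum_of_subset_of_nonneg (fun m hm => ?_) fun _ _ _ => by positivity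
    simp only [mem_filter, mem_Ioc] at hm ⊢
    exact ⟨⟨hm.1.1.1, hm.2⟩, hm.1.2⟩
  have b4 : ∑ m ∈ Ioc x (2 * x) with m ≡ a [MOD primorial D],
      (if ⌊2 * x * Real.exp (-η)⌋₊ < m then (1 : ℝ) else 0) * ZZ D x g δ k m ^ 2 ≤
      3 * η * (x / primorial D * M) + x / primorial D * BB D x ^ 4 * ε := by
    have a1 := Real.add_one_le_exp (-η)
    have a2 : Real.exp (-η) ≤ 1 := Real.exp_le_one_iff.2 (by linarith)
    rw [div_le_iff₀ hη] at h5
    refine le_trans ?_ (hI ⌊2 * x * Real.exp (-η)⌋₊ (2 * x) (Nat.floor_le_of_le (by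
      push_cast; nlinarith)) _ (by
      have := Nat.lt_floor_add_one (2 * x * Real.exp (-η)); push_cast; nlinarith))
    simp only [ite_mul, one_mul, zero_mul]
    rw [← sum_filter]
    refine sum_le_sum_of_subset_of_nonneg (fun m hm => ?_) fun _ _ _ => by positivity
    simp only [mem_filter, mem_Ioc] at hm ⊢
    exact ⟨⟨hm.2, hm.1.1.2⟩, hm.1.2⟩
  have b5 := mul_le_mul_of_nonneg_left (hI x (2 * x) (by omega) 1 (by push_cast; linarith))
    (show 0 ≤ 2 * η by positivity)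
  have b6 : 2 * η * (x / primorial D * BB D x ^ 4 * ε) ≤ 1 * (x / primorial D * BB D x ^ 4 * ε) := by
    gcongr; linarith
  simp only [err, add_mul, sum_add_distrib]
  rw [← mul_sum]
  refine (add_le_add (add_le_add (add_le_add (add_le_add b1 b2) b3) b4) b5).trans ?_
  rw [hM] at *
  linarith

end Pool.Agent.Lib.MP_fc51f7_nt
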