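import Pool.Agent.Lib.MP_fc51f7_nt.Adm.B
import Pool.Agent.Lib.MP_fc51f7_nt.Main

/-! Assembly for an arbitrary admissible quadruple of shifts. -/

set_option autoImplicit false
set_option linter.unusedSectionVars false

namespace Pool.Agent.Lib.MP_fc51f7_nt

open Finset Filter Topology

section
variable {D : ℕ} (hD : 16 ≤ D) {g : Fin 3 → ℤ} (hg : Function.Injective g)
  (hg8 : ∀ j, g j ≠ 0 ∧ 2 * |g j| ≤ D) {a : ℕ} {J : ℕ} (hJ : 0 < J)
include hD hg hg8 hJ

theorem net_errG : ∀ᶠ x : ℕ in atTop, ∑ m ∈ Ioc x (2 * x) with m ≡ a [MOD primorial D],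
    (SS (qq D x) (og g) (YY D x _) m - ∑ k ∈ range (330 * J), ZZ D x g (dl J) k m) ^ 2 ≤
      x / primorial D * BB D x ^ 4 * (25 * dl J ^ 2 * (4 + eD D)) := by
  filter_upwards [TUG hD (κ := Option (Fin 3)) (by simp) (og_injG hg hg8).1 (og_injG hg hg8).2
    (j0 := none) rfl a, Meas.L_pos, small_pow D (show (6605 / 10000 : ℝ) < 1 by norm_num) one_pos]
    with x h hl h1
  have hδ := dl_pos hJ
  have := h ∅ x (2 * x) _ (5 * dl J) (by simp) (by omega) (by positivity) (cells_sum hJ hl)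
    fun T hT => ⟨by simp, by
      by_cases h2 : YY D x _ T = 0
      · obtain ⟨k, -, hk⟩ := exists_ne_zero_of_sum_ne_zero (fun h3 => hT (by rw [h2, h3, sub_zero]))
        exact tens_supp hl (fun _ => yk_lt hl) hk
      · exact YY_supp hl h2⟩
  simp only [notMem_empty, IsEmpty.forall_iff, implies_true, and_true, prod_empty, mul_one,
    Nat.cast_mul, Nat.cast_ofNat, Fintype.card_option, Fintype.card_fin,
    show (2 : ℝ) * x - x = x by ring] at this
  refine (le_of_eq (sum_congr rfl fun m _ => ?_)).trans (this.trans ?_)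
  · simp only [ZZ, ← SS_tens]
    simp only [SS, sub_mul, sum_sub_distrib, sum_mul]
    rw [sum_comm]
  · refine (mul_le_mul_of_nonneg_left (add_le_add le_rfl h1) (by positivity)).trans (le_of_eq ?_)
    ring

theorem upperG (ha : Nat.Coprime a (primorial D)) {q : Fin 3 → ℝ → ℝ} {η ε : ℝ} (hη : 0 < η)
    (hη' : η ≤ 1 / 1000) (hε : 0 < ε)
    (hq : ∀ X, ∀ L ∈ Set.Icc (0 : ℝ) (33 / 100), cost η (Lam X X) (om X X) L ≤ q X L) :
    ∀ᶠ x : ℕ in atTop, ∑ m ∈ Ioc x (2 * x) with m ≡ a [MOD primorial D],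
      min (ArithmeticFunction.cardFactors m : ℝ) 8 *
        (∑ k ∈ range (330 * J), ZZ D x g (dl J) k m) ^ 2 ≤
      x / primorial D * BB D x ^ 4 * (∑ k ∈ range (330 * J), (q (lay J k) (Lk (dl J) k) + 7 * ε) *
        (∫ u in (k * dl J)..((k + 1) * dl J), u ^ 2 / 2) + ε + (330 * J) ^ 2 *
        ((26 + 2 / η) * eD D + 7 * ε + 160 * (57 * η * (3 + eD D) + 32 * ε))) := by
  have hδ := dl_pos hJ
  have h1 := tendsto_finsetSum (range (330 * J)) fun k _ =>
    (nuu_tendsto D hδ k).const_mul (q (lay J k) (Lk (dl J) k) + 7 * ε)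
  filter_upwards [h1.eventually_le_const (lt_add_of_pos_right _ hε),
    (eventually_all_finset (range (330 * J))).2 fun k hk =>
      (eventually_all_finset (range (330 * J))).2 fun k' hk' =>
      pairG hD hg hg8 a (dl J) k k' ha (good_om (lay J k) (lay J k')) hε hη hη' hδ
        (Lam_bd (lay J k) (lay J k')).1 (Lam_bd _ _).2 (lev (mem_range.1 hk) (mem_range.1 hk')),
    (eventually_all_finset (range (330 * J))).2 fun k _ => badG hD hg hg8 ha (dl J) k hη hη' hε,
    eventually_gt_atTop 1, gr_logx.eventually_ge_atTop (Real.log 2 / η), Meas.BB_pos D]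
    with x h1 h2 h3 hx h4 hB
  rw [div_le_iff₀' hη] at h4
  set K := range (330 * J) with hK
  set X := (x : ℝ) / primorial D with hX
  have hX0 : 0 ≤ X := by positivity
  calc _ ≤ ∑ m ∈ Ioc x (2 * x) with m ≡ a [MOD primorial D], (∑ k ∈ K, ∑ k' ∈ K,
        TT η x (Lam (lay J k) (lay J k')) (om (lay J k) (lay J k')) m *
          (ZZ D x g (dl J) k m * ZZ D x g (dl J) k' m) +
        160 * K.card * ∑ k ∈ K, err η x m * ZZ D x g (dl J) k m ^ 2) := by
        refine sum_le_sum fun m hm => ?_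
        have a1 := ptw hη hη' hx h4 (mem_filter.1 hm).1
          fun Y => ∑ k ∈ K with lay J k = Y, ZZ D x g (dl J) k m
        rw [sum_fiberwise, sum_layers K (lay J) _ fun Y Y' => TT η x (Lam Y Y') (om Y Y') m] at a1
        refine a1.trans (add_le_add le_rfl ((mul_le_mul_of_nonneg_left (sum_layers_sq _ _ _)
          (mul_nonneg (by norm_num) (err_nonneg hη.le _ _))).trans (le_of_eq ?_)))
        rw [← mul_sum]; ring
    _ ≤ ∑ k ∈ K, (X * BB D x ^ 4 * ((q (lay J k) (Lk (dl J) k) + 7 * ε) *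
          (nuu D x (dl J) k k / BB D x ^ 3)) +
          K.card * (X * BB D x ^ 4 * ((26 + 2 / η) * eD D + 7 * ε))) +
        160 * K.card * (K.card * (X * BB D x ^ 4 * (57 * η * (3 + eD D) + 32 * ε))) := by
        rw [sum_add_distrib, ← mul_sum, sum_comm, sum_comm (t := K) (f := fun m k => err η x m * _)]
        refine add_le_add (sum_le_sum fun k hk => ?_) (mul_le_mul_of_nonneg_left
          ((sum_le_card_nsmul _ _ _ h3).trans_eq (nsmul_eq_mul _ _)) (by positivity))
        rw [sum_comm]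
        refine (sum_le_sum (h2 k hk)).trans ?_
        rw [sum_add_distrib, sum_const, nsmul_eq_mul, sum_eq_single_of_mem k hk fun k' _ h => by
          rw [nuu_ne D x hδ h.symm, mul_zero]]
        refine add_le_add ?_ le_rfl
        have a1 := dl_le (mem_range.1 hk)
        have a2 := hq (lay J k) (Lk (dl J) k) ⟨by unfold Lk; push_cast at a1; linarith,
          sub_le_self _ (by positivity)⟩
        have a3 := nuu_nonneg D x (dl J) k
        refine le_trans (mul_le_mul_of_nonneg_right (mul_le_mul_of_nonneg_left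
          (add_le_add a2 le_rfl) (by positivity)) a3) (le_of_eq ?_)
        field_simp
    _ ≤ _ := by
        rw [sum_add_distrib, ← mul_sum, sum_const, nsmul_eq_mul, card_range]
        have := mul_le_mul_of_nonneg_left h1 (show 0 ≤ X * BB D x ^ 4 by positivity)
        push_cast
        linarith

end

theorem coordG {q : Fin 3 → ℝ → ℝ} (hq : ∀ X, Continuous (q X))
    (hc : ∀ η ∈ Set.Ioc (0 : ℝ) (1 / 10), ∀ X, ∀ L ∈ Set.Icc (0 : ℝ) (33 / 100),
      cost η (Lam X X) (om X X) L ≤ q X L) {ε : ℝ} (hε : 0 < ε) :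
    ∀ᶠ D : ℕ in atTop, ∀ (g : Fin 3 → ℤ) (a : ℕ), Function.Injective g →
      (∀ j, g j ≠ 0 ∧ 2 * |g j| ≤ D) → Nat.Coprime a (primorial D) → ∀ᶠ x : ℕ in atTop,
      ∑ m ∈ Ioc x (2 * x) with m ≡ a [MOD primorial D],
        min (ArithmeticFunction.cardFactors m : ℝ) 8 * SS (qq D x) (og g) (YY D x _) m ^ 2 ≤
        x / primorial D * BB D x ^ 4 * (QQ q + ε) := by
  have hlim : Tendsto (fun t : ℝ => (1 + t) * (QQ q + 4 * t) + t) (𝓝[>] 0)
      (𝓝 ((1 + 0) * (QQ q + 4 * 0) + 0)) :=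
    tendsto_nhdsWithin_of_tendsto_nhds (Continuous.tendsto (by fun_prop) _)
  obtain ⟨t, h1, ht⟩ := ((hlim.eventually_le_const (show _ < QQ q + ε by linarith)).and
    self_mem_nhdsWithin).exists
  have ht : 0 < t := ht
  have h2 : Tendsto (fun J => 8 * (1 + 1 / t) * (25 * dl J ^ 2 * 5)) atTop
      (𝓝 (8 * (1 + 1 / t) * (25 * 0 ^ 2 * 5))) :=
    (((dl_tendsto.pow 2).const_mul _).mul_const _).const_mul _
  obtain ⟨J, h2, h3, hJ⟩ := ((h2.eventually_le_const (show _ < t by simpa using ht)).and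
    ((riemann_sum hq ht).and (eventually_gt_atTop 0))).exists
  set K : ℝ := (330 * J) ^ 2 with hK
  have hK0 : 0 < K := by positivity
  obtain ⟨η, hη, hη1, hη2⟩ : ∃ η : ℝ, 0 < η ∧ η ≤ 1 / 1000 ∧ K * (160 * (57 * η * 4)) ≤ t :=
    ⟨min (1 / 1000) (t / (K * 36480)), by positivity, min_le_left _ _, by
      have := (le_div_iff₀ (by positivity)).1 (min_le_right (1 / 1000) (t / (K * 36480)))
      linarith⟩
  have h4 := (eD_tendsto.const_mul (26 + 2 / η)).const_mul K
  filter_upwards [h4.eventually_le_const (show _ < t by simpa using ht),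
    eD_tendsto.eventually_le_const one_pos, eventually_ge_atTop 16] with D h4 h5 hD g a hg hg8 ha
  have hr : 0 < t / (8 + 5127 * K) := by positivity
  have h6 : t / (8 + 5127 * K) * (8 + 5127 * K) = t := by field_simp
  set r := t / (8 + 5127 * K)
  filter_upwards [net_errG hD hg hg8 hJ (a := a), upperG hD hg hg8 hJ ha hη hη1 hr
    (hc η ⟨hη, by linarith⟩)] with x a1 a2
  have hX : 0 ≤ x / primorial D * BB D x ^ 4 := by have := Meas.BB_nonneg D x; positivity
  have a3 := h3 (7 * r) (by positivity)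
  have a4 : K * (160 * (57 * η * (3 + eD D))) ≤ K * (160 * (57 * η * 4)) := by gcongr; linarith
  have a5 := a2.trans (mul_le_mul_of_nonneg_left (c := QQ q + 4 * t) (by rw [← hK]; linarith) hX)
  have a6 := a1.trans (mul_le_mul_of_nonneg_left (c := 25 * dl J ^ 2 * 5)
    (by gcongr; linarith) hX)
  have a7 := add_le_add (mul_le_mul_of_nonneg_left a5 (show 0 ≤ 1 + t by positivity))
    (mul_le_mul_of_nonneg_left a6 (show 0 ≤ 8 * (1 + 1 / t) by positivity))
  refine le_trans ?_ (a7.trans ?_)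
  · rw [mul_sum, mul_sum, ← sum_add_distrib]
    refine sum_le_sum fun m _ => ?_
    set S := SS (qq D x) (og g) (YY D x _) m
    set Z := ∑ k ∈ range (330 * J), ZZ D x g (dl J) k m
    have b1 : S ^ 2 ≤ (1 + t) * Z ^ 2 + (1 + 1 / t) * (S - Z) ^ 2 := by
      have : (1 + t) * Z ^ 2 + (1 + 1 / t) * (S - Z) ^ 2 - S ^ 2 = (t * Z - (S - Z)) ^ 2 / t := by
        field_simp; ring
      have h : 0 ≤ (t * Z - (S - Z)) ^ 2 / t := by positivity
      linarith
    have b2 : 0 ≤ min (ArithmeticFunction.cardFactors m : ℝ) 8 := by positivity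
    have b3 := mul_le_mul_of_nonneg_right (min_le_right (ArithmeticFunction.cardFactors m : ℝ) 8)
      (show 0 ≤ (1 + 1 / t) * (S - Z) ^ 2 by positivity)
    nlinarith [mul_le_mul_of_nonneg_left b1 b2]
  · rw [mul_left_comm, mul_left_comm (8 * (1 + 1 / t)), ← mul_add]
    exact mul_le_mul_of_nonneg_left (by linarith) hX

section
variable {H : Fin 4 → ℕ}

/-- The shifts seen from the form `i`. -/
def ggG (H : Fin 4 → ℕ) (i : Fin 4) (j : Fin 3) : ℤ := (H (i.succAbove j) : ℤ) - H i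

theorem ggG_ok (hH : Function.Injective H) {G D : ℕ} (hG : ∀ i, H i ≤ G) (hD : 2 * G ≤ D)
    (i : Fin 4) : Function.Injective (ggG H i) ∧ ∀ j, ggG H i j ≠ 0 ∧ 2 * |ggG H i j| ≤ D := by
  refine ⟨fun j l h => Fin.succAbove_right_injective (p := i) (hH ?_), fun j => ⟨fun h =>
    Fin.succAbove_ne i j (hH ?_), ?_⟩⟩
  · unfold ggG at h; omega
  · unfold ggG at h; omega
  · have := hG i
    have := hG (i.succAbove j)
    have : |ggG H i j| ≤ G := by unfold ggG; rw [abs_le]; omega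
    omega

theorem SS_coordG (D x n : ℕ) (i : Fin 4) :
    SS (qq D x) (og (ggG H 0)) (YY D x _) (n + H 0 : ℕ) =
      SS (qq D x) (og (ggG H i)) (YY D x _) (n + H i : ℕ) := by
  have h : ∀ i : Fin 4, SS (qq D x) (og (ggG H i)) (YY D x _) (n + H i : ℕ) =
      SS (qq D x) (fun j => (H j : ℤ)) (YY D x _) n := fun i =>
    SS_equiv (finSuccEquiv' i).symm _ _ _ _ fun j => by cases j <;> simp [og, ggG]
  rw [h, h]

theorem exists_classG (hadm : ∀ p : ℕ, p.Prime → ∃ r : ℕ, ∀ i, ¬ p ∣ r + H i) (D : ℕ) :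
    ∃ b : ℕ, ∀ i, Nat.Coprime (b + H i) (primorial D) := by
  classical
  choose! r hr using hadm
  obtain ⟨b, hb⟩ := Nat.chineseRemainderOfFinset r id
    (Nat.primesLE D) (fun p hp => (Nat.prime_of_mem_primesLE hp).ne_zero) fun p hp r hr h =>
      (Nat.coprime_primes (Nat.prime_of_mem_primesLE hp) (Nat.prime_of_mem_primesLE hr)).2 h
  exact ⟨b, fun i => Nat.coprime_of_dvd fun p hp h1 h2 => hr p hp i
    ((((hb p (Nat.mem_primesLE.2 ⟨hp.dvd_primorial_iff.1 h2, hp⟩)).add_right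
      (H i)).dvd_iff dvd_rfl).1 h1)⟩

theorem lowerG {ε : ℝ} (hε : 0 < ε) (G : ℕ) : ∀ᶠ D : ℕ in atTop, ∀ (g : Fin 3 → ℤ) (b : ℕ),
    Function.Injective g → (∀ j, g j ≠ 0 ∧ 2 * |g j| ≤ D) → ∀ᶠ x : ℕ in atTop,
    x / primorial D * BB D x ^ 4 *
      ((∫ s in (0 : ℝ)..1, Pz (33 / 100 - s) ^ 2 * (s ^ 3 / 6)) - 4 * ε) ≤
    ∑ n ∈ Ioc (x + G) (2 * x - G) with n ≡ b [MOD primorial D],
      SS (qq D x) (og g) (YY D x _) n ^ 2 := by
  filter_upwards [eD_tendsto.eventually_le_const hε, eventually_ge_atTop 16] with D h1 hD g b hg hg8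
  have h2 := (conv_nu_pow D (Option (Fin 3)) 3 (by simp)).2.2.2.2 (fun t => fL (33 / 100) t ^ 2)
    ((fL_cont _).pow 2) 1 zero_le_one fun u hu => by rw [fL_zero (by linarith)]; simp
  simp only [zero_mul, zero_add, show ((Nat.factorial 3 : ℕ) : ℝ) = 6 by norm_num [Nat.factorial]]
    at h2
  unfold fL at h2
  set I := ∫ s in (0 : ℝ)..1, Pz (33 / 100 - s) ^ 2 * (s ^ 3 / 6)
  filter_upwards [TIG hD (κ := Option (Fin 3)) (by simp) (og_injG hg hg8).1 (og_injG hg hg8).2
    (j0 := none) rfl b, Meas.L_pos, small_pow D (show (6605 / 10000 : ℝ) < 1 by norm_num) hε,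
    h2.eventually_le_const (lt_add_of_pos_right _ hε),
    h2.eventually_const_le (sub_lt_self _ hε), eventually_ge_atTop (2 * G), Meas.BB_pos D,
    tendsto_natCast_atTop_atTop.eventually_ge_atTop (2 * G * (I + ε) / ε)]
    with x h hl h3 h4 h5 hx hB h6
  have hW : (0 : ℝ) < primorial D := by exact_mod_cast primorial_pos D
  have := (abs_le.1 (h ∅ (x + G) (2 * x - G) (YY D x _) (YY D x _) (by simp) (by omega)
    (fun T => abs_fL _ _) (fun T => abs_fL _ _) (fun T hT => ⟨by simp, YY_supp hl hT⟩)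
    fun T hT => ⟨by simp, YY_supp hl hT⟩)).1
  simp only [notMem_empty, IsEmpty.forall_iff, implies_true, and_true, prod_empty, mul_one,
    Fintype.card_option, Fintype.card_fin, Nat.cast_sub (show G ≤ 2 * x by omega), Nat.cast_add,
    Nat.cast_mul, Nat.cast_ofNat, show (2 : ℝ) * x - G - (x + G) = x - 2 * G by ring, ← sq] at this
  have e : ∑ T, YY D x (Option (Fin 3)) T ^ 2 * wts (qq D x) T = BB D x ^ 4 *
      ∑ T : Option (Fin 3) → Finset (PP D x), wts (qq D x) T / BB D x ^ (3 + 1) *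
        Pz (33 / 100 - lgs (qq D x) T / Real.log x) ^ 2 := by
    rw [mul_sum]
    exact sum_congr rfl fun T _ => by unfold YY fL; field_simp
  rw [e] at this
  set s := ∑ T : Option (Fin 3) → Finset (PP D x),
    wts (qq D x) T / BB D x ^ (3 + 1) * Pz (33 / 100 - lgs (qq D x) T / Real.log x) ^ 2
  rw [div_le_iff₀ hε] at h6
  have hG : (0 : ℝ) ≤ G := Nat.cast_nonneg G
  have h7 : (x : ℝ) * (I - 2 * ε) ≤ (x - 2 * G) * s := by
    nlinarith [mul_le_mul_of_nonneg_left h5 (show (0 : ℝ) ≤ x by positivity),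
      mul_le_mul_of_nonneg_left h4 hG]
  have h8 := mul_le_mul_of_nonneg_right h7 (show 0 ≤ BB D x ^ 4 / primorial D by positivity)
  have h9 : ((x : ℝ) - 2 * G) / primorial D * (eD D * BB D x ^ 4) ≤
      x / primorial D * (ε * BB D x ^ 4) := by
    have := eD_nonneg D
    gcongr; linarith
  have e1 : (x - 2 * G) * s * (BB D x ^ 4 / primorial D) =
      (x - 2 * G) / primorial D * (BB D x ^ 4 * s) := by ring
  have e2 : x * (I - 2 * ε) * (BB D x ^ 4 / primorial D) =
      x / primorial D * BB D x ^ 4 * (I - 2 * ε) := by ring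
  linarith

theorem mainG (hH : Function.Injective H) (hadm : ∀ p : ℕ, p.Prime → ∃ r : ℕ, ∀ i, ¬ p ∣ r + H i) :
    ∀ᶠ x : ℕ in atTop, ∃ n > x, ∑ i, ArithmeticFunction.cardFactors (n + H i) ≤ 10 := by
  obtain ⟨qA, qB, qC, hA, hB, hC, h1, h2⟩ := numerics
  change 4 * QQ ![qA, qB, qC] < _ at h2
  set I := ∫ s in (0 : ℝ)..1, Pz (33 / 100 - s) ^ 2 * (s ^ 3 / 6)
  have hε : 0 < (11 * I - 4 * QQ ![qA, qB, qC]) / 50 := by linarith
  obtain ⟨G, hG⟩ : ∃ G, ∀ i, H i ≤ G := ⟨univ.sup H, fun i => le_sup (mem_univ i)⟩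
  obtain ⟨D, h3, h4, hD⟩ := ((lowerG hε G).and ((coordG (q := ![qA, qB, qC])
    (fun X => by fin_cases X <;> assumption) (fun η hη X L hL => by
      fin_cases X
      exacts [(h1 L hL η hη).1, (h1 L hL η hη).2.1, (h1 L hL η hη).2.2]) hε).and
    (eventually_ge_atTop (2 * G)))).exists
  obtain ⟨b, hb⟩ := exists_classG hadm D
  have ok := ggG_ok hH hG hD
  filter_upwards [h3 (ggG H 0) (b + H 0) (ok 0).1 (ok 0).2, eventually_all.2 fun i =>
    h4 (ggG H i) (b + H i) (ok i).1 (ok i).2 (hb i), Meas.BB_pos D, eventually_gt_atTop 0]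
    with x h5 h6 hB hx
  by_contra hcon
  have hW : (0 : ℝ) < primorial D := by exact_mod_cast primorial_pos D
  have hX : 0 < x / primorial D * BB D x ^ 4 := by positivity
  replace h5 := h5.trans (show _ ≤ ∑ n ∈ Ioc x (2 * x - G) with n ≡ b [MOD primorial D],
      SS (qq D x) (og (ggG H 0)) (YY D x _) (n + H 0 : ℕ) ^ 2 by
    refine le_trans (sum_le_sum_of_subset_of_nonneg (fun m hm => ?_) fun _ _ _ => by positivity)
      (sum_image (g := (· + H 0)) (f := fun m : ℕ =>
        SS (qq D x) (og (ggG H 0)) (YY D x _) m ^ 2) (add_left_injective _).injOn).le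
    have := hG 0
    have := mem_Ioc.1 (mem_filter.1 hm).1
    refine mem_image.2 ⟨m - H 0, mem_filter.2 ⟨mem_Ioc.2 ⟨by omega, by omega⟩,
      Nat.ModEq.add_right_cancel' (H 0) ?_⟩, by omega⟩
    rw [Nat.sub_add_cancel (by omega)]
    exact (mem_filter.1 hm).2)
  have h7 : 11 * ∑ n ∈ Ioc x (2 * x - G) with n ≡ b [MOD primorial D],
      SS (qq D x) (og (ggG H 0)) (YY D x _) (n + H 0 : ℕ) ^ 2 ≤ ∑ i, ∑ n ∈ Ioc x (2 * x - G) with
        n ≡ b [MOD primorial D], min (ArithmeticFunction.cardFactors (n + H i) : ℝ) 8 *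
          SS (qq D x) (og (ggG H 0)) (YY D x _) (n + H 0 : ℕ) ^ 2 := by
    rw [sum_comm, mul_sum]
    refine sum_le_sum fun n hn => ?_
    rw [← sum_mul]
    refine mul_le_mul_of_nonneg_right ?_ (sq_nonneg _)
    have a1 := (mem_Ioc.1 (mem_filter.1 hn).1).1
    have a2 := not_le.1 fun h => hcon ⟨n, a1, h⟩
    have a3 : ∀ i, 0 < ArithmeticFunction.cardFactors (n + H i) := fun i =>
      ArithmeticFunction.cardFactors_pos_iff_one_lt.2 (by omega)
    have a4 : 11 ≤ ∑ i, min (ArithmeticFunction.cardFactors (n + H i)) 8 := by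
      have := a3 0; have := a3 1; have := a3 2; have := a3 3
      rw [Fin.sum_univ_four] at a2 ⊢
      omega
    exact_mod_cast a4
  have h8 := h7.trans (sum_le_sum fun i _ => le_trans (by
    simp only [SS_coordG D x _ i]
    refine (sum_image (g := (· + H i)) (f := fun m : ℕ =>
      min (ArithmeticFunction.cardFactors m : ℝ) 8 * SS (qq D x) (og (ggG H i)) (YY D x _) m ^ 2)
      (add_left_injective _).injOn).ge.trans
      (sum_le_sum_of_subset_of_nonneg (fun m hm => ?_) fun _ _ _ => by positivity)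
    obtain ⟨n, hn, rfl⟩ := mem_image.1 hm
    have := hG i
    have := mem_Ioc.1 (mem_filter.1 hn).1
    exact mem_filter.2 ⟨mem_Ioc.2 ⟨by omega, by omega⟩, (mem_filter.1 hn).2.add_right _⟩) (h6 i))
  rw [sum_const, card_univ, Fintype.card_fin, nsmul_eq_mul] at h8
  have h9 := (mul_le_mul_of_nonneg_left h5 (by norm_num : (0 : ℝ) ≤ 11)).trans h8
  rw [mul_left_comm, mul_left_comm _ (_ * BB D x ^ 4), mul_le_mul_iff_right₀ hX] at h9
  push_cast at h9
  linarith

end

end Pool.Agent.Lib.MP_fc51f7_nt
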