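import Pool.Agent.Lib.MP_fc51f7_nt.Adm.C
import Pool.Agent.Lib.MP_fc51f7_nt.Q3

/-! Four numbers with at most three prime factors, for arbitrary admissible shifts. -/

set_option autoImplicit false
set_option linter.unusedSectionVars false

namespace Pool.Agent.Lib.MP_fc51f7_nt.P3

open Finset Filter Topology

section
variable {D : ℕ} (hD : 16 ≤ D) {g : Fin 3 → ℤ} (hg : Function.Injective g)
  (hg8 : ∀ j, g j ≠ 0 ∧ 2 * |g j| ≤ D) (a : ℕ) (δ : ℝ) (k k' : ℕ)
include hD hg hg8

theorem pairAG {ε : ℝ} (hε : 0 < ε) : ∀ᶠ x : ℕ in atTop,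
    |∑ m ∈ Ioc x (2 * x) with m ≡ a [MOD primorial D], ZZ D x g δ k m * ZZ D x g δ k' m -
      x / primorial D * ((∑ T, yk D x δ k T * yk D x δ k' T * wt (qq D x) T) * nuu D x δ k k')| ≤
      x / primorial D * BB D x ^ 4 * (eD D + ε) := by
  filter_upwards [TIG hD (κ := Option (Fin 3)) (by simp) (og_injG hg hg8).1 (og_injG hg hg8).2
    (j0 := none) rfl a, Meas.L_pos, small_pow D (show (6605 / 10000 : ℝ) < 1 by norm_num) hε]
    with x h hl h2
  have := h ∅ x (2 * x) (tens (yk D x δ k) (cell D x δ k)) (tens (yk D x δ k') (cell D x δ k'))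
    (by simp) (by omega) (abs_tens fun T => abs_fL _ _) (abs_tens fun T => abs_fL _ _)
    (fun T hT => ⟨by simp, tens_supp hl (fun _ => yk_lt hl) hT⟩)
    (fun T hT => ⟨by simp, tens_supp hl (fun _ => yk_lt hl) hT⟩)
  simp only [SS_tens, sum_tens, notMem_empty, IsEmpty.forall_iff, implies_true, and_true,
    prod_empty, mul_one, Nat.cast_mul, Nat.cast_ofNat, Fintype.card_option, Fintype.card_fin,
    show (2 : ℝ) * x - x = x by ring] at this
  exact this.trans (by linarith)

theorem pair_primeG : ∀ᶠ x : ℕ in atTop, ∀ i : PP D x,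
    |∑ m ∈ Ioc x (2 * x) with m ≡ a [MOD primorial D] ∧ qq D x i ∣ m,
        ZZ D x g δ k m * ZZ D x g δ k' m - x / primorial D / qq D x i *
        ((∑ T, dif (yk D x δ k) i T * dif (yk D x δ k') i T * wt (qq D x) T) * nuu D x δ k k')| ≤
      x / primorial D / qq D x i * (eD D * BB D x ^ 4) + (x : ℝ) ^ (6605 / 10000 : ℝ) := by
  filter_upwards [TIG hD (κ := Option (Fin 3)) (by simp) (og_injG hg hg8).1 (og_injG hg hg8).2
    (j0 := none) rfl a, Meas.L_pos] with x h hl i
  have := h {i} x (2 * x) (tens (dif (yk D x δ k) i) (cell D x δ k))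
    (tens (dif (yk D x δ k') i) (cell D x δ k'))
    (by simp) (by omega) (abs_tens (abs_dif _ _ _ _ _)) (abs_tens (abs_dif _ _ _ _ _))
    (fun T hT => ⟨by simpa using (dif_lt hl (left_ne_zero_of_mul hT)).1,
      tens_supp hl (fun _ h => (dif_lt hl h).2) hT⟩)
    (fun T hT => ⟨by simpa using (dif_lt hl (left_ne_zero_of_mul hT)).1,
      tens_supp hl (fun _ h => (dif_lt hl h).2) hT⟩)
  simp only [SS_tens, sum_tens, mem_singleton, forall_eq, prod_singleton, Nat.cast_mul,
    Nat.cast_ofNat, Fintype.card_option, Fintype.card_fin, ← div_div,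
    show (2 : ℝ) * x - x = x by ring] at this
  unfold nuu
  convert this using 3
  refine sum_congr rfl fun m hm => ?_
  have hd : (qq D x i : ℤ) ∣ m := by exact_mod_cast (mem_filter.1 hm).2.2
  rw [ZZ, ZZ, S0_dif _ _ i hd, S0_dif _ (yk D x δ k') i hd]

theorem pairBG {ε η c : ℝ} (hε : 0 < ε) (hη : 0 < η) (hc : |c| ≤ 1) :
    ∀ᶠ x : ℕ in atTop,
    ∑ m ∈ Ioc x (2 * x) with m ≡ a [MOD primorial D],
      (∑ p ∈ m.primeFactors with η < Real.log (p : ℕ) / Real.log x ∧
          Real.log (p : ℕ) / Real.log x ≤ 339 / 1000,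
        c * (Real.log (p : ℕ) / Real.log x)) * (ZZ D x g δ k m * ZZ D x g δ k' m) ≤
      x / primorial D * ((∑ i : PP D x with η < Real.log (qq D x i) / Real.log x ∧
          Real.log (qq D x i) / Real.log x ≤ 339 / 1000,
        c * (Real.log (qq D x i) / Real.log x) / qq D x i *
          ∑ T, dif (yk D x δ k) i T * dif (yk D x δ k') i T * wt (qq D x) T) * nuu D x δ k k') +
      x / primorial D * BB D x ^ 4 * (2 / η * eD D + ε) := by
  filter_upwards [pair_primeG hD hg hg8 a δ k k', sum_primeFactors D, Meas.L_pos, pi_bdd D,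
    small_pow D (show (9995 / 10000 : ℝ) < 1 by norm_num) hε, const_le_rpow D hη,
    eventually_gt_atTop 0] with x h1 h2 hl h3 h4 h5 hx
  have hx' : (0 : ℝ) < x := by positivity
  set u : ℕ → ℝ := fun p => Real.log p / Real.log x with hu
  set s : Finset (PP D x) := univ.filter fun i => η < u (qq D x i) ∧ u (qq D x i) ≤ 339 / 1000
  have e1 : ∑ m ∈ Ioc x (2 * x) with m ≡ a [MOD primorial D],
      (∑ p ∈ m.primeFactors with η < u p ∧ u p ≤ 339 / 1000, c * u p) *
        (ZZ D x g δ k m * ZZ D x g δ k' m) = ∑ i ∈ s, c * u (qq D x i) *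
      ∑ m ∈ Ioc x (2 * x) with m ≡ a [MOD primorial D] ∧ qq D x i ∣ m,
        ZZ D x g δ k m * ZZ D x g δ k' m := by
    simp only [← filter_filter, sum_filter (fun m => qq D x _ ∣ m), mul_sum]
    rw [sum_comm]
    refine sum_congr rfl fun m hm => ?_
    have hm0 : x < m := (mem_Ioc.1 (mem_filter.1 hm).1).1
    rw [filter_filter, h2 m (fun p => η < u p ∧ u p ≤ 339 / 1000) _ (by omega) fun p hp h => ?_,
      sum_mul]
    · exact sum_congr rfl fun i _ => by split_ifs <;> simp
    · have hp0 : (0 : ℝ) < p := by exact_mod_cast (Nat.prime_of_mem_primeFactors hp).pos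
      have b1 : (x : ℝ) ^ η < p := by
        rw [rpow_eq_exp hx, ← Real.lt_log_iff_exp_lt hp0]; exact (lt_div_iff₀ hl).1 h.1
      have b2 : (p : ℝ) ≤ x := by
        rw [← Real.log_le_log_iff hp0 hx']
        have := (div_le_iff₀ hl).1 h.2; linarith
      exact ⟨by exact_mod_cast h5.trans_lt b1, by exact_mod_cast b2⟩
  have h6 : ∑ i ∈ s, (1 : ℝ) / qq D x i ≤ 2 / η := by
    rw [le_div_iff₀ hη, sum_mul]
    refine le_trans (sum_le_sum fun i hi => ?_) (le_trans (sum_le_sum_of_subset_of_nonneg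
      (fun i hi => mem_filter.2 ⟨mem_univ _, (mem_filter.1 hi).2.2.trans (by norm_num)⟩)
      fun i _ _ => ((conv_pi D).1 x i (mem_univ _)).1) h3)
    beta_reduce
    rw [mul_comm (qq D x i : ℝ), ← div_div, one_div, mul_comm, ← div_eq_mul_inv]
    gcongr
    exact (mem_filter.1 hi).2.1.le
  have h7 := card_small D x hl (b := 339 / 1000)
    (fun i => η < u (qq D x i) ∧ u (qq D x i) ≤ 339 / 1000) fun i h => h.2
  have h8 : (x : ℝ) ^ (339 / 1000 : ℝ) * (x : ℝ) ^ (6605 / 10000 : ℝ) =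
      (x : ℝ) ^ (9995 / 10000 : ℝ) := by rw [← Real.rpow_add hx']; norm_num
  have h9 := eD_nonneg D
  have h10 := Meas.BB_nonneg D x
  rw [e1]
  calc _ ≤ ∑ i ∈ s, (x / primorial D * (c * u (qq D x i) / qq D x i *
          (∑ T, dif (yk D x δ k) i T * dif (yk D x δ k') i T * wt (qq D x) T) * nuu D x δ k k') +
          (x / primorial D * (eD D * BB D x ^ 4) * (1 / qq D x i) +
            (x : ℝ) ^ (6605 / 10000 : ℝ))) := by
        refine sum_le_sum fun i hi => ?_
        obtain ⟨a1, a2⟩ := (mem_filter.1 hi).2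
        have a7 : |c * u (qq D x i)| ≤ 1 := by
          rw [abs_mul, abs_of_pos (hη.trans a1)]; nlinarith
        have a8 := (le_abs_self _).trans ((abs_mul _ _).le.trans
          (mul_le_mul a7 (h1 i) (abs_nonneg _) zero_le_one))
        rw [mul_sub, sub_le_iff_le_add'] at a8
        exact a8.trans (le_of_eq (by ring))
    _ ≤ _ := by
        rw [sum_add_distrib, sum_add_distrib, ← mul_sum, ← sum_mul, ← mul_sum, sum_const,
          nsmul_eq_mul]
        refine add_le_add le_rfl ?_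
        have b1 := mul_le_mul_of_nonneg_left h6
          (show 0 ≤ x / primorial D * (eD D * BB D x ^ 4) by positivity)
        have b2 := mul_le_mul_of_nonneg_right h7
          (show 0 ≤ (x : ℝ) ^ (6605 / 10000 : ℝ) by positivity)
        rw [h8] at b2
        exact (add_le_add b1 (b2.trans h4)).trans (le_of_eq (by ring))

theorem pairCG (ha : Nat.Coprime a (primorial D)) {ε η : ℝ}
    (hε : 0 < ε) (hη : 0 < η) (hη' : η ≤ 1 / 1000) (hδ : 0 < δ)
    (hlev : (k + 1) * δ + (k' + 1) * δ ≤ 499 / 1000) : ∀ᶠ x : ℕ in atTop, ∀ w : ℕ → ℝ,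
    (∀ m : ℕ, 0 < m → (m : ℝ) ≤ (x : ℝ) ^ (662 / 1000 : ℝ) → |w m| ≤ 1) →
    ∑ m ∈ Ioc x (2 * x) with m ≡ a [MOD primorial D],
      aw η x w m * (ZZ D x g δ k m * ZZ D x g δ k' m) ≤
      GS D a x η δ k k' w * nuu D x δ k k' + x / primorial D * BB D x ^ 4 * (2 * eD D + ε) := by
  classical
  have hW : (0 : ℝ) < primorial D := by exact_mod_cast primorial_pos D
  have hV := Meas.V_pos D
  set V := ∏ p ∈ Nat.primesLE D, (1 - (p : ℝ)⁻¹) with hVd
  set K1 : ℝ := (3 * 2 ^ ⌈1 / η⌉₊) ^ 2 with hK1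
  have hK0 : 0 < K1 := by positivity
  have hLk : ∀ k : ℕ, Lk δ k ≤ 31 / 100 := fun k => sub_le_self _ (by positivity)
  have hL1 : ∀ k : ℕ, Lk δ k ≤ 1 := fun k => (hLk k).trans (by norm_num)
  filter_upwards [bvG D hD hη hη (show 0 < ε * V ^ 2 / (primorial D * K1) by positivity) g hg hg8 a,
    Tbar_approxG hD hg hg8, F3 D a ha (hL1 k) hη (by linarith) one_pos,
    F3 D a ha (hL1 k') hη (by linarith) one_pos, small_cof hη, Meas.L_pos, Meas.BB_pos D, Zf_le D,
    eventually_gt_atTop 1, const_le_rpow 2 (show (0 : ℝ) < 338 / 1000 by norm_num)]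
    with x h1 h2 h4 h5 h6 hl hB hZ hx h7 w hw
  have hx' : (1 : ℝ) < x := by exact_mod_cast hx
  have hx0 : (0 : ℝ) < x := by linarith
  set S : ℕ → ℕ → ℝ := fun k m => S1 (qq D x) (Real.log x) (fL (Lk δ k)) m with hS
  set P : ℕ → Finset ℕ := fun m => (Ioc (lo η x (box η m)) (hi η x (box η m))).filter
    fun p => p.Prime ∧ p * m ≡ a [MOD primorial D] with hP
  set v : ℕ → ℝ := fun m => Real.log m / Real.log x with hv
  have hv0 : ∀ m, 0 ≤ v m := fun m => div_nonneg (Real.log_natCast_nonneg m) hl.le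
  have hlev' : ∀ T U, cell D x δ k T ≠ 0 → cell D x δ k' U ≠ 0 →
      lgs (qq D x) T + lgs (qq D x) U ≤ (1 / 2 - η) * Real.log x := fun T U a1 a2 => by
    nlinarith [cell_lt hl a1, cell_lt hl a2]
  have hSb : ∀ k, ∀ m ∈ Icc 1 x, rough η x m → |S k m| ≤ 3 * 2 ^ ⌈1 / η⌉₊ * BB D x := by
    intro k m hm hr
    refine (abs_S0_le (qq D x) (qq_two D x) (yk D x δ k) (fun T => abs_fL _ _)
      (s := 2 * (Real.log x)⁻¹) (Λ := 1 / 2 * Real.log x) (by positivity)
      (fun T hT => by nlinarith [yk_lt hl hT, hLk k]) m).trans ?_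
    have a5 : Real.exp (2 * (Real.log x)⁻¹ * (1 / 2 * Real.log x)) ≤ 3 :=
      exp_le_three (by field_simp; norm_num)
    have a6 := (card_dvd_le (qq D x) (gr_prime D x) (qq_inj D x)
      (show m ≠ 0 by have := (mem_Icc.1 hm).1; omega)).trans (card_rough_le hη hx hm hr)
    have a8 := one_le_Zf (qq D x) (qq_two D x) (2 * (Real.log x)⁻¹)
    rw [mul_assoc 3]
    gcongr
    norm_num
  have b1 := h1 (cell D x δ k) (cell D x δ k') (fun m => if m ∈ Icc 1 x ∧ rough η x m ∧
      (m : ℝ) ≤ (x : ℝ) ^ (662 / 1000 : ℝ) then w m * (S k m * S k' m) / (K1 * BB D x ^ 2)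
      else 0) (lo η x) (hi η x) (abs_cell _ _ _ _) (abs_cell _ _ _ _) hlev'
    (fun m => by
      split_ifs with h
      · rw [abs_div, abs_of_pos (show 0 < K1 * BB D x ^ 2 by positivity),
          div_le_one (by positivity), abs_mul, abs_mul]
        have a2 := hw m (mem_Icc.1 h.1).1 h.2.2
        refine (mul_le_mul a2 (mul_le_mul (hSb k m h.1 h.2.1) (hSb k' m h.1 h.2.1) (abs_nonneg _)
          (by positivity)) (by positivity) (by norm_num)).trans (le_of_eq ?_)
        rw [hK1]; ring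
      · simp)
    (fun m hm => by
      have h := not_not.1 fun h => hm (if_neg h)
      exact ⟨h.2.1.1, h.2.2.trans (Real.rpow_le_rpow_of_exponent_le hx'.le (by linarith)),
        h.2.1.2⟩)
    (fun j => by
      refine ⟨?_, (Nat.floor_le (by positivity)).trans (by gcongr; linarith)⟩
      have a1 := (le_max_left _ _).trans_lt (Nat.lt_floor_add_one
        (max ((x : ℝ) ^ (339 / 1000 : ℝ)) (x * Real.exp (-(j * η)))))
      have a2 : (x : ℝ) ^ η ≤ (x : ℝ) ^ (1 / 1000 : ℝ) :=
        Real.rpow_le_rpow_of_exponent_le hx'.le hη'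
      have a3 : (x : ℝ) ^ (339 / 1000 : ℝ) = (x : ℝ) ^ (338 / 1000 : ℝ) * (x : ℝ) ^ (1 / 1000 : ℝ) := by
        rw [← Real.rpow_add hx0]; norm_num
      have a4 : 1 ≤ (x : ℝ) ^ (1 / 1000 : ℝ) := Real.one_le_rpow hx'.le (by norm_num)
      unfold lo
      nlinarith)
  have b2 := h2 _ _ (abs_cell D x δ k) (abs_cell D x δ k') fun T U a1 a2 =>
    (hlev' T U a1 a2).trans (by nlinarith)
  have hG : GS D a x η δ k k' w = ∑ m ∈ Icc 1 x with rough η x m, ∑ p ∈ P m,
    Real.log p / Real.log x * w m * (S k m * S k' m) := rfl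
  have b3 : |GS D a x η δ k k' w| ≤ x / primorial D * BB D x * 2 := by
    have a1 := int_HH (Lk δ k)
    have a2 := int_HH (Lk δ k')
    have a3 : 0 ≤ x / primorial D * BB D x := by positivity
    refine le_trans ?_ (show (_ + _) / 2 ≤ _ by
      have := add_le_add (h4.trans (mul_le_mul_of_nonneg_left (add_le_add a1 le_rfl) a3))
        (h5.trans (mul_le_mul_of_nonneg_left (add_le_add a2 le_rfl) a3))
      exact (div_le_div_of_nonneg_right this zero_le_two).trans (le_of_eq (by ring)))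
    rw [← sum_add_distrib, sum_div, hG]
    refine (abs_sum_le_sum_abs _ _).trans (sum_le_sum fun m hm => ?_)
    rw [← sum_add_distrib, sum_div]
    refine (abs_sum_le_sum_abs _ _).trans (sum_le_sum fun p hp => ?_)
    have hm0 := (mem_Icc.1 (mem_filter.1 hm).1).1
    have a4 := hw m hm0 (h6 m p hm0 (mem_filter.1 hp).1)
    rw [mul_assoc, abs_mul, abs_of_nonneg (hv0 p), ← mul_add, mul_div_assoc, abs_mul]
    refine mul_le_mul_of_nonneg_left ((mul_le_of_le_one_left (abs_nonneg _) a4).trans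
      (abs_le.2 ⟨?_, ?_⟩)) (hv0 p)
    · nlinarith [sq_nonneg (S k m + S k' m)]
    · nlinarith [sq_nonneg (S k m - S k' m)]
  set R := ∑ m ∈ Icc 1 x, (if m ∈ Icc 1 x ∧ rough η x m ∧ (m : ℝ) ≤ (x : ℝ) ^ (662 / 1000 : ℝ) then
    w m * (S k m * S k' m) / (K1 * BB D x ^ 2) else 0) * ∑ p ∈ P m, Real.log p *
      (SS (qq D x) g (cell D x δ k) (p * m : ℕ) * SS (qq D x) g (cell D x δ k') (p * m : ℕ) -
        Tbar (qq D x) g (cell D x δ k) (cell D x δ k')) with hR
  have e1 : ∑ m ∈ Ioc x (2 * x) with m ≡ a [MOD primorial D],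
      aw η x w m * (ZZ D x g δ k m * ZZ D x g δ k' m) = K1 * BB D x ^ 2 / Real.log x * R +
      GS D a x η δ k k' w * Tbar (qq D x) g (cell D x δ k) (cell D x δ k') := by
    rw [aw_reindex hη, hR, hG, mul_sum, sum_mul, sum_filter, sum_filter, ← sum_add_distrib]
    refine sum_congr rfl fun m hm => ?_
    by_cases hr : rough η x m
    swap
    · simp [hr]
    rw [if_pos hr, if_pos hr, mul_sum, mul_sum, sum_mul, ← sum_add_distrib]
    refine sum_congr rfl fun p hp => ?_
    have hm0 := (mem_Icc.1 hm).1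
    obtain ⟨a1, a2, -⟩ := mem_filter.1 hp
    have a3 : 339 / 1000 * Real.log x < Real.log p := by
      rw [← Real.log_rpow hx0]
      exact Real.log_lt_log (by positivity) (box_mem hη hm0 a1).1
    have a4 : ∀ k, S0 (qq D x) (yk D x δ k) (p * m : ℕ) = S k m := fun k =>
      S0_mul_prime _ (gr_prime D x) _ a2 (fun T hT => by nlinarith [yk_lt hl hT, hLk k]) m
    rw [if_pos ⟨hm, hr, h6 m p hm0 a1⟩, ZZ, ZZ, a4, a4]
    field_simp
    ring
  have b5 : K1 * BB D x ^ 2 / Real.log x * R ≤ x / primorial D * BB D x ^ 4 * ε := by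
    refine (mul_le_mul_of_nonneg_left ((le_abs_self _).trans b1) (by positivity)).trans
      (le_of_eq ?_)
    unfold BB
    rw [← hVd]
    field_simp
  have b6 := (le_abs_self _).trans ((abs_mul _ _).le.trans
    (mul_le_mul b3 b2 (abs_nonneg _) (by positivity)))
  rw [e1]
  unfold nuu
  nlinarith

theorem pairG (ha : Nat.Coprime a (primorial D)) {ε η c e C : ℝ} (hε : 0 < ε) (hη : 0 < η)
    (hη' : η ≤ 1 / 1000) (hδ : 0 < δ) (hC : 0 < C) (hc : |c| ≤ C) (he : |e| ≤ C)
    (hk : k = k' → 0 ≤ c ∧ 0 ≤ e) (hlev : e = 0 ∨ (k + 1) * δ + (k' + 1) * δ ≤ 499 / 1000) :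
    ∀ᶠ x : ℕ in atTop, ∑ m ∈ Ioc x (2 * x) with m ≡ a [MOD primorial D],
      (c + e * phi η x m) * (ZZ D x g δ k m * ZZ D x g δ k' m) ≤
      x / primorial D * BB D x * (c * nn (Lk δ k) + e * cost2 η (Lk δ k) + 4 * C * ε) *
        nuu D x δ k k' + x / primorial D * BB D x ^ 4 * (C * ((5 + 2 / η) * eD D + 4 * ε)) := by
  classical
  have hLk : Lk δ k ≤ 31 / 100 := sub_le_self _ (by positivity)
  have hD0 := eD_nonneg D
  obtain ⟨e, rfl⟩ : ∃ e', e = C * e' := ⟨e / C, by field_simp⟩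
  have he1 : |e| ≤ 1 := by
    rw [abs_mul, abs_of_pos hC] at he; exact (mul_le_iff_le_one_right hC).1 he
  have hC' : ∀ᶠ x : ℕ in atTop, ∑ m ∈ Ioc x (2 * x) with m ≡ a [MOD primorial D],
      e * aw η x (fun m => 1 - psi x m) m * (ZZ D x g δ k m * ZZ D x g δ k' m) ≤
      e * GS D a x η δ k k' (fun m => 1 - psi x m) * nuu D x δ k k' +
        2 * (x / primorial D * BB D x ^ 4 * (2 * eD D + ε)) := by
    rcases hlev with h | h
    · refine Eventually.of_forall fun x => ?_
      have := Meas.BB_nonneg D x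
      simp only [(mul_eq_zero.1 h).resolve_left hC.ne', zero_mul, sum_const_zero, zero_add]
      positivity
    filter_upwards [pairCG hD hg hg8 a δ k k' ha hε hη hη' hδ h, eventually_gt_atTop 1] with x h1 hx
    have h2 := mul_le_mul_of_nonneg_left (h1 (fun m => e / 2 * (1 - psi x m)) fun m a1 a2 => by
      have a3 := psi_mem hx a1 a2
      have a4 : |1 - psi x m| ≤ 2 := abs_le.2 ⟨by linarith, by linarith⟩
      rw [abs_mul, abs_div, abs_two]
      nlinarith [abs_nonneg e]) zero_le_two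
    have e1 : ∀ m, 2 * aw η x (fun m => e / 2 * (1 - psi x m)) m =
        e * aw η x (fun m => 1 - psi x m) m := fun m => by
      simp only [aw, mul_sum]
      exact sum_congr rfl fun _ _ => by ring
    have e2 : 2 * GS D a x η δ k k' (fun m => e / 2 * (1 - psi x m)) =
        e * GS D a x η δ k k' (fun m => 1 - psi x m) := by
      simp only [GS, mul_sum]
      exact sum_congr rfl fun _ _ => sum_congr rfl fun _ _ => by ring
    rw [mul_add, mul_sum, ← mul_assoc, e2] at h2
    exact (sum_congr rfl fun m _ => by rw [← e1, mul_assoc]).trans_le h2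
  filter_upwards [hC', pairAG hD hg hg8 a δ k k' hε, pairBG hD hg hg8 a δ k k' hε hη he1,
    (F1 D (hLk.trans (by norm_num))).eventually_le_const (lt_add_of_pos_right _ hε),
    F2 D (hLk.trans (by norm_num)) hη (by linarith) hε,
    F3 D a ha (hLk.trans (by norm_num)) hη (by linarith) hε,
    F4 D a ha (hLk.trans (by norm_num)) hη hη' hε, Meas.BB_pos D] with x h1 h2 h3 h4 h5 h6 h7 hB
  have hX : 0 ≤ (x : ℝ) / primorial D := by positivity
  have h8 := (le_abs_self _).trans ((abs_mul _ _).le.trans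
    (mul_le_mul hc h2 (abs_nonneg _) hC.le))
  have h9 := mul_le_mul_of_nonneg_left (add_le_add h3 h1) hC.le
  have e1 : ∑ m ∈ Ioc x (2 * x) with m ≡ a [MOD primorial D],
      (c + C * e * phi η x m) * (ZZ D x g δ k m * ZZ D x g δ k' m) =
      c * ∑ m ∈ Ioc x (2 * x) with m ≡ a [MOD primorial D], ZZ D x g δ k m * ZZ D x g δ k' m +
      C * (∑ m ∈ Ioc x (2 * x) with m ≡ a [MOD primorial D],
        (∑ p ∈ m.primeFactors with η < Real.log (p : ℕ) / Real.log x ∧
          Real.log (p : ℕ) / Real.log x ≤ 339 / 1000, e * (Real.log (p : ℕ) / Real.log x)) *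
          (ZZ D x g δ k m * ZZ D x g δ k' m) + ∑ m ∈ Ioc x (2 * x) with m ≡ a [MOD primorial D],
        e * aw η x (fun m => 1 - psi x m) m * (ZZ D x g δ k m * ZZ D x g δ k' m)) := by
    rw [← sum_add_distrib, mul_sum, mul_sum, ← sum_add_distrib]
    refine sum_congr rfl fun m _ => ?_
    rw [← mul_sum, phi]; ring
  rw [e1]
  refine (add_le_add (sub_le_iff_le_add.1 ((mul_sub _ _ _).ge.trans h8)) h9).trans ?_
  by_cases h : k = k'
  · subst h
    obtain ⟨c0, e0⟩ := hk rfl
    have a1 := nuu_nonneg D x δ k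
    have a2 : GS D a x η δ k k (fun m => 1 - psi x m) ≤ _ := le_trans (le_of_eq (by
      simp only [GS, ← sum_sub_distrib]
      exact sum_congr rfl fun _ _ => sum_congr rfl fun _ _ => by ring)) (sub_le_sub h6 h7)
    rw [div_le_iff₀ hB] at h4
    have a3 := mul_le_mul_of_nonneg_left a2 (mul_nonneg e0 a1)
    have a4 := mul_le_mul_of_nonneg_left h4 (mul_nonneg (mul_nonneg hX a1) c0)
    have a5 := mul_le_mul_of_nonneg_left h5 (mul_nonneg (mul_nonneg hX a1) e0)
    have a6 : 0 ≤ x / primorial D * nuu D x δ k k * BB D x * ε := by positivity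
    have a7 := mul_le_mul_of_nonneg_left (le_of_abs_le hc) a6
    have a8 := mul_le_mul_of_nonneg_left (le_of_abs_le he) a6
    simp only [mul_div_assoc e, mul_assoc e, ← mul_sum]
    unfold cost2 yk
    linarith
  · simp only [nuu_ne D x hδ h, mul_zero, zero_add, add_zero]
    exact le_of_eq (by ring)

end

theorem badG {D : ℕ} (hD : 16 ≤ D) {g : Fin 3 → ℤ} (hg : Function.Injective g)
    (hg8 : ∀ j, g j ≠ 0 ∧ 2 * |g j| ≤ D)
    {a : ℕ} (ha : Nat.Coprime a (primorial D)) (δ : ℝ) (k : ℕ)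
    {η ε : ℝ} (hη : 0 < η) (hη' : η ≤ 1 / 1000) (hε : 0 < ε) : ∀ᶠ x : ℕ in atTop,
    ∑ m ∈ Ioc x (2 * x) with m ≡ a [MOD primorial D], err η x m * ZZ D x g δ k m ^ 2 ≤
      x / primorial D * BB D x ^ 4 * (57 * η * (3 + eD D) + 32 * ε) := by
  classical
  filter_upwards [TUG hD (κ := Option (Fin 3)) (by simp) (og_injG hg hg8).1 (og_injG hg hg8).2
    (j0 := none) rfl a, Meas.L_pos, small_pow D (show (6605 / 10000 : ℝ) < 1 by norm_num) hε,
    small_pow D (show (6615 / 10000 : ℝ) < 1 by norm_num) hε,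
    small_pow D (show 1 - η / 2 < 1 by linarith) hε, count_sq hη, sum_primeFactors D, pi_bdd D,
    crudeG D (og_injG hg hg8).2 (show 0 < η / 64 by positivity), eventually_gt_atTop 0,
    tendsto_natCast_atTop_atTop.eventually_ge_atTop (1 / η)]
    with x h hl s1 s2 s3 h1 h2 h3 h4 hx h5
  have hx' : (0 : ℝ) < x := by positivity
  have hW : (0 : ℝ) < primorial D := by exact_mod_cast primorial_pos D
  have hB := Meas.BB_nonneg D x
  have he := eD_nonneg D
  set M := (3 + eD D) * BB D x ^ 4 with hM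
  have hM0 : 0 ≤ M := by positivity
  have hI : ∀ N1 N2 : ℕ, N1 ≤ N2 → ∀ c : ℝ, (N2 : ℝ) - N1 ≤ c * x →
      ∑ m ∈ Ioc N1 N2 with m ≡ a [MOD primorial D], ZZ D x g δ k m ^ 2 ≤
        c * (x / primorial D * M) + x / primorial D * BB D x ^ 4 * ε := by
    intro N1 N2 hN c hc
    have := h ∅ N1 N2 (tens (yk D x δ k) (cell D x δ k)) 1 (by simp) hN one_pos
      (abs_tens fun T => abs_fL _ _) fun T hT => ⟨by simp, tens_supp hl (fun _ => yk_lt hl) hT⟩
    simp only [SS_tens, notMem_empty, IsEmpty.forall_iff, implies_true, and_true,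
      prod_empty, mul_one, Fintype.card_option, Fintype.card_fin, one_pow, one_mul] at this
    refine this.trans (add_le_add ?_ s1)
    rw [← mul_assoc c, ← mul_div_assoc]
    exact mul_le_mul_of_nonneg_right (div_le_div_of_nonneg_right hc hW.le) hM0
  set u : ℕ → ℝ := fun p => Real.log p / Real.log x with hu
  set s : Finset (PP D x) := univ.filter fun i => u (qq D x i) ≤ η
  have b1 : ∑ m ∈ Ioc x (2 * x) with m ≡ a [MOD primorial D],
      (∑ p ∈ m.primeFactors with u p ≤ η, (1 : ℝ)) * ZZ D x g δ k m ^ 2 ≤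
      50 * η * (x / primorial D * M) + 25 * (x / primorial D * BB D x ^ 4 * ε) := by
    have e1 : ∑ m ∈ Ioc x (2 * x) with m ≡ a [MOD primorial D],
        (∑ p ∈ m.primeFactors with u p ≤ η, (1 : ℝ)) * ZZ D x g δ k m ^ 2 = ∑ i ∈ s,
        ∑ m ∈ Ioc x (2 * x) with m ≡ a [MOD primorial D] ∧ qq D x i ∣ m, ZZ D x g δ k m ^ 2 := by
      simp only [← filter_filter, sum_filter (fun m => qq D x _ ∣ m)]
      rw [sum_comm]
      refine sum_congr rfl fun m hm => ?_
      have hm0 : x < m := (mem_Ioc.1 (mem_filter.1 hm).1).1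
      rw [h2 m (fun p => u p ≤ η) _ (by omega) fun p hp h => ?_, sum_mul]
      · exact sum_congr rfl fun i _ => by split_ifs <;> simp
      · have hp' := Nat.prime_of_mem_primeFactors hp
        have hp0 : (0 : ℝ) < p := by exact_mod_cast hp'.pos
        have b2 : (p : ℝ) ≤ x := by
          rw [← Real.log_le_log_iff hp0 hx']
          have := (div_le_iff₀ hl).1 h; nlinarith
        refine ⟨not_le.1 fun h' => ?_, by exact_mod_cast b2⟩
        have b3 := hp'.dvd_primorial_iff.2 h'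
        exact hp'.one_lt.ne' (Nat.eq_one_of_dvd_coprimes ha ((((mem_filter.1 hm).2.of_dvd
          b3).dvd_iff dvd_rfl).1 (Nat.dvd_of_mem_primeFactors hp)) b3)
    have h7 := card_small D x hl (b := 1 / 1000) (fun i => u (qq D x i) ≤ η) fun i h => h.trans hη'
    have h8 : (x : ℝ) ^ (1 / 1000 : ℝ) * (x : ℝ) ^ (6605 / 10000 : ℝ) =
        (x : ℝ) ^ (6615 / 10000 : ℝ) := by rw [← Real.rpow_add hx']; norm_num
    rw [e1]
    refine (sum_le_sum (g := fun i => 25 * η * (x / primorial D * M) *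
      (Real.log (qq D x i) / (qq D x i * Real.log x)) + 25 * (x : ℝ) ^ (6605 / 10000 : ℝ))
      fun i hi => ?_).trans ?_
    · have a1 : u (qq D x i) ≤ η := (mem_filter.1 hi).2
      have a2 : (1 : ℝ) < qq D x i := by have := Meas.two_le D x i; linarith
      have a3 : 0 < u (qq D x i) := div_pos (Real.log_pos a2) hl
      have := h {i} x (2 * x) (tens (dif (yk D x δ k) i) (cell D x δ k)) (5 * u (qq D x i))
        (by simp) (by omega) (by positivity) (abs_tens fun T => by
          unfold dif; split_ifs with h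
          · simp only [abs_zero]; positivity
          · refine (fL_lip _ _ _).trans (le_of_eq ?_)
            rw [abs_sub_comm, ← sub_div, lg, lg, sum_insert h, add_sub_cancel_right,
              abs_of_pos a3])
        fun T hT => ⟨by simpa using (dif_lt hl (left_ne_zero_of_mul hT)).1,
          tens_supp hl (fun _ h => (dif_lt hl h).2) hT⟩
      simp only [SS_tens, mem_singleton, forall_eq, prod_singleton, Nat.cast_mul,
        Nat.cast_ofNat, Fintype.card_option, Fintype.card_fin, ← div_div,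
        show (2 : ℝ) * x - x = x by ring] at this
      refine (le_of_eq (sum_congr rfl fun m hm => ?_)).trans (this.trans ?_)
      · rw [ZZ, S0_dif _ _ i (by exact_mod_cast (mem_filter.1 hm).2.2)]
      · rw [mul_add, show Real.log (qq D x i) / (qq D x i * Real.log x) = u (qq D x i) / qq D x i by
          simp only [hu]; field_simp]
        refine add_le_add (le_trans (le_of_eq (show _ = 25 * u (qq D x i) * (x / primorial D * M) *
          (u (qq D x i) / qq D x i) by rw [hM]; ring)) (by gcongr)) ?_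
        gcongr; nlinarith
    · rw [sum_add_distrib, ← mul_sum, sum_const, nsmul_eq_mul]
      have a1 := (sum_le_sum_of_subset_of_nonneg (s := s) (fun i hi => mem_filter.2
        ⟨mem_univ _, (mem_filter.1 hi).2.trans (by linarith)⟩)
        fun i _ _ => ((conv_pi D).1 x i (mem_univ _)).1).trans h3
      have a2 := mul_le_mul_of_nonneg_left a1
        (show 0 ≤ 25 * η * (x / primorial D * M) by positivity)
      have a3 := mul_le_mul_of_nonneg_right h7
        (show 0 ≤ (x : ℝ) ^ (6605 / 10000 : ℝ) by positivity)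
      exact add_le_add (a2.trans (le_of_eq (by ring))) (by linarith)
  have b2 : ∑ m ∈ Ioc x (2 * x) with m ≡ a [MOD primorial D],
      (if ∃ p : ℕ, p.Prime ∧ η < u p ∧ p ^ 2 ∣ m then (1 : ℝ) else 0) * ZZ D x g δ k m ^ 2 ≤
      4 * (x / primorial D * BB D x ^ 4 * ε) := by
    refine (sum_le_sum_of_subset_of_nonneg (filter_subset _ _) fun _ _ _ => by positivity).trans
      ((sum_le_sum (g := fun m => (if ∃ p : ℕ, p.Prime ∧ η < u p ∧ p ^ 2 ∣ m then (1 : ℝ) else 0) *
        (x : ℝ) ^ (η / 2)) fun m hm => ?_).trans ?_)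
    · have := h4 m hm _ (abs_tens (δ := δ) (k := k) (y0 := yk D x δ k) fun T => abs_fL _ _)
        fun T hT => tens_supp hl (fun _ => yk_lt hl) hT
      rw [SS_tens] at this
      refine mul_le_mul_of_nonneg_left ?_ (by positivity)
      rw [← sq_abs]
      refine (pow_le_pow_left₀ (abs_nonneg _) this 2).trans (le_of_eq ?_)
      rw [← Real.rpow_mul_natCast hx'.le]; push_cast; ring_nf
    · rw [← sum_mul]
      refine (mul_le_mul_of_nonneg_right h1 (by positivity)).trans ?_
      rw [mul_assoc, ← Real.rpow_add hx', show 1 - η + η / 2 = 1 - η / 2 by ring]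
      linarith
  have b3 : ∑ m ∈ Ioc x (2 * x) with m ≡ a [MOD primorial D],
      (if m ≤ ⌊x * Real.exp η⌋₊ then (1 : ℝ) else 0) * ZZ D x g δ k m ^ 2 ≤
      2 * η * (x / primorial D * M) + x / primorial D * BB D x ^ 4 * ε := by
    have a1 := Real.add_one_le_exp η
    have a2 : Real.exp η ≤ 1 + 2 * η := by
      have := Real.add_one_le_exp (-η)
      rw [Real.exp_neg, le_inv_comm₀ (by linarith) (Real.exp_pos _)] at this
      refine this.trans ?_
      rw [inv_le_iff_one_le_mul₀ (by linarith)]; nlinarith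
    refine le_trans ?_ (hI x ⌊x * Real.exp η⌋₊ (Nat.le_floor (by nlinarith)) _ (by
      have := Nat.floor_le (show 0 ≤ x * Real.exp η by positivity); nlinarith))
    simp only [ite_mul, one_mul, zero_mul]
    rw [← sum_filter]
    refine sum_le_sum_of_subset_of_nonneg (fun m hm => ?_) fun _ _ _ => by positivity
    simp only [mem_filter, mem_Ioc] at hm ⊢
    exact ⟨⟨hm.1.1.1, hm.2⟩, hm.1.2⟩
  have b4 : ∑ m ∈ Ioc x (2 * x) with m ≡ a [MOD primorial D],
      (if ⌊2 * x * Real.exp (-η)⌋₊ < m then (1 : ℝ) else 0) * ZZ D x g δ k m ^ 2 ≤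
      3 * η * (x / primorial D * M) + x / primorial D * BB D x ^ 4 * ε := by
    have a1 := Real.add_one_le_exp (-η)
    have a2 : Real.exp (-η) ≤ 1 := Real.exp_le_one_iff.2 (by linarith)
    rw [div_le_iff₀ hη] at h5
    refine le_trans ?_ (hI ⌊2 * x * Real.exp (-η)⌋₊ (2 * x) (Nat.floor_le_of_le (by
      push_cast; nlinarith)) _ (by
      have := Nat.lt_floor_add_one (2 * x * Real.exp (-η)); push_cast; nlinarith))
    simp only [ite_mul, one_mul, zero_mul]
    rw [← sum_filter]
    refine sum_le_sum_of_subset_of_nonneg (fun m hm => ?_) fun _ _ _ => by positivity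
    simp only [mem_filter, mem_Ioc] at hm ⊢
    exact ⟨⟨hm.2, hm.1.1.2⟩, hm.1.2⟩
  have b5 := mul_le_mul_of_nonneg_left (hI x (2 * x) (by omega) 1 (by push_cast; linarith))
    (show 0 ≤ 2 * η by positivity)
  have b6 : 2 * η * (x / primorial D * BB D x ^ 4 * ε) ≤ 1 * (x / primorial D * BB D x ^ 4 * ε) := by
    gcongr; linarith
  simp only [err, add_mul, sum_add_distrib]
  rw [← mul_sum]
  refine (add_le_add (add_le_add (add_le_add (add_le_add b1 b2) b3) b4) b5).trans ?_
  rw [hM] at *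
  linarith

section
variable {D : ℕ} (hD : 16 ≤ D) {g : Fin 3 → ℤ} (hg : Function.Injective g)
  (hg8 : ∀ j, g j ≠ 0 ∧ 2 * |g j| ≤ D) {a : ℕ} {J : ℕ} (hJ : 0 < J)
include hD hg hg8 hJ

theorem net_errG : ∀ᶠ x : ℕ in atTop, ∑ m ∈ Ioc x (2 * x) with m ≡ a [MOD primorial D],
    (SS (qq D x) (og g) (YY D x _) m - ∑ k ∈ range (310 * J), ZZ D x g (dl J) k m) ^ 2 ≤
      x / primorial D * BB D x ^ 4 * (25 * dl J ^ 2 * (4 + eD D)) := by
  filter_upwards [TUG hD (κ := Option (Fin 3)) (by simp) (og_injG hg hg8).1 (og_injG hg hg8).2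
    (j0 := none) rfl a, Meas.L_pos, small_pow D (show (6605 / 10000 : ℝ) < 1 by norm_num) one_pos]
    with x h hl h1
  have hδ := dl_pos hJ
  have := h ∅ x (2 * x) _ (5 * dl J) (by simp) (by omega) (by positivity) (cells_sum hJ hl)
    fun T hT => ⟨by simp, by
      by_cases h2 : YY D x _ T = 0
      · obtain ⟨k, -, hk⟩ := exists_ne_zero_of_sum_ne_zero (fun h3 => hT (by rw [h2, h3, sub_zero]))
        exact tens_supp hl (fun _ => yk_lt hl) hk
      · exact YY_supp hl h2⟩
  simp only [notMem_empty, IsEmpty.forall_iff, implies_true, and_true, prod_empty, mul_one,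
    Nat.cast_mul, Nat.cast_ofNat, Fintype.card_option, Fintype.card_fin,
    show (2 : ℝ) * x - x = x by ring] at this
  refine (le_of_eq (sum_congr rfl fun m _ => ?_)).trans (this.trans ?_)
  · simp only [ZZ, ← SS_tens]
    simp only [SS, sub_mul, sum_sub_distrib, sum_mul]
    rw [sum_comm]
  · refine (mul_le_mul_of_nonneg_left (add_le_add le_rfl h1) (by positivity)).trans (le_of_eq ?_)
    ring

theorem upperG (ha : Nat.Coprime a (primorial D)) {qc : ℝ → ℝ} {η ε t C : ℝ} (hη : 0 < η)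
    (hη' : η ≤ 1 / 1000) (hε : 0 < ε) (ht : 0 < t) (hC : 0 < C)
    (hC' : ∀ X Y, |cM X Y| ≤ C ∧ |1 + nM X Y - cM X Y| ≤ C)
    (hq : ∀ L ∈ Set.Icc (61 / 1000 : ℝ) (31 / 100), cost2 η L ≤ qc L + t) :
    ∀ᶠ x : ℕ in atTop, ∑ m ∈ Ioc x (2 * x) with m ≡ a [MOD primorial D],
      (if 4 ≤ ArithmeticFunction.cardFactors m then (1 : ℝ) else 0) *
        (∑ k ∈ range (310 * J), ZZ D x g (dl J) k m) ^ 2 ≤
      x / primorial D * BB D x ^ 4 * (∑ k ∈ range (310 * J),
        (cM (lay J k) (lay J k) * nn (Lk (dl J) k) + (1 + nM (lay J k) (lay J k) -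
          cM (lay J k) (lay J k)) * qc (Lk (dl J) k) + C * (t + 4 * ε)) *
        (∫ u in (k * dl J)..((k + 1) * dl J), u ^ 2 / 2) + ε + (310 * J) ^ 2 * C *
        ((5 + 2 / η) * eD D + 4 * ε + 4 * (57 * η * (3 + eD D) + 32 * ε))) := by
  have hδ := dl_pos hJ
  have h1 := tendsto_finsetSum (range (310 * J)) fun k _ =>
    (nuu_tendsto D hδ k).const_mul (cM (lay J k) (lay J k) * nn (Lk (dl J) k) +
      (1 + nM (lay J k) (lay J k) - cM (lay J k) (lay J k)) * qc (Lk (dl J) k) + C * (t + 4 * ε))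
  filter_upwards [h1.eventually_le_const (lt_add_of_pos_right _ hε),
    (eventually_all_finset (range (310 * J))).2 fun k hk =>
      (eventually_all_finset (range (310 * J))).2 fun k' hk' =>
      pairG hD hg hg8 a (dl J) k k' ha hε hη hη' hδ hC (hC' (lay J k) (lay J k')).1 (hC' _ _).2
        (fun h => h ▸ diag_nonneg _) ((lev (lay J k) (lay J k')).imp_right fun h => by
          have a1 := dl_le (lay_lt (mem_range.1 hk))
          have a2 := dl_le (lay_lt (mem_range.1 hk'))
          have a3 : (up (lay J k) : ℝ) + up (lay J k') ≤ 499 := by exact_mod_cast h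
          linarith),
    (eventually_all_finset (range (310 * J))).2 fun k _ => badG hD hg hg8 ha (dl J) k hη hη' hε,
    eventually_gt_atTop 1, gr_logx.eventually_ge_atTop (Real.log 2 / η), Meas.BB_pos D]
    with x h1 h2 h3 hx h4 hB
  rw [div_le_iff₀' hη] at h4
  set K := range (310 * J) with hK
  set X := (x : ℝ) / primorial D with hX
  have hX0 : 0 ≤ X := by positivity
  calc _ ≤ ∑ m ∈ Ioc x (2 * x) with m ≡ a [MOD primorial D], (∑ k ∈ K, ∑ k' ∈ K,
        (cM (lay J k) (lay J k') + (1 + nM (lay J k) (lay J k') - cM (lay J k) (lay J k')) *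
          phi η x m) * (ZZ D x g (dl J) k m * ZZ D x g (dl J) k' m) +
        4 * C * K.card * ∑ k ∈ K, err η x m * ZZ D x g (dl J) k m ^ 2) := by
        refine sum_le_sum fun m hm => ?_
        obtain ⟨φ, a1, a2, a3, a4⟩ := phi_close hη hη' hx h4 (mem_filter.1 hm).1
        refine (psd_step K _ _ _ (cM_psd K (lay J) _) (nM_psd K (lay J) _) (fun _ _ => (hC' _ _).2)
          a1 a2 (by split_ifs with h; exacts [(a3 h).ge, a1]) a4).trans (le_of_eq ?_)
        rw [← mul_sum]; ring
    _ ≤ ∑ k ∈ K, (X * BB D x ^ 4 * ((cM (lay J k) (lay J k) * nn (Lk (dl J) k) +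
          (1 + nM (lay J k) (lay J k) - cM (lay J k) (lay J k)) * qc (Lk (dl J) k) +
          C * (t + 4 * ε)) * (nuu D x (dl J) k k / BB D x ^ 3)) +
          K.card * (X * BB D x ^ 4 * (C * ((5 + 2 / η) * eD D + 4 * ε)))) +
        4 * C * K.card * (K.card * (X * BB D x ^ 4 * (57 * η * (3 + eD D) + 32 * ε))) := by
        rw [sum_add_distrib, ← mul_sum, sum_comm, sum_comm (t := K) (f := fun m k => err η x m * _)]
        refine add_le_add (sum_le_sum fun k hk => ?_) (mul_le_mul_of_nonneg_left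
          ((sum_le_card_nsmul _ _ _ h3).trans_eq (nsmul_eq_mul _ _)) (by positivity))
        rw [sum_comm]
        refine (sum_le_sum (h2 k hk)).trans ?_
        rw [sum_add_distrib, sum_const, nsmul_eq_mul, sum_eq_single_of_mem k hk fun k' _ h => by
          rw [nuu_ne D x hδ h.symm, mul_zero]]
        refine add_le_add ?_ le_rfl
        have a2 : (1 + nM (lay J k) (lay J k) - cM (lay J k) (lay J k)) * cost2 η (Lk (dl J) k) ≤
            (1 + nM (lay J k) (lay J k) - cM (lay J k) (lay J k)) * qc (Lk (dl J) k) + C * t := by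
          rcases lev (lay J k) (lay J k) with h | h
          · rw [h, zero_mul, zero_mul, zero_add]; positivity
          have a1 := dl_le (lay_lt (mem_range.1 hk))
          have a3 : (up (lay J k) : ℝ) ≤ 249 := by exact_mod_cast (by omega : up (lay J k) ≤ 249)
          have a4 := mul_le_mul_of_nonneg_left (hq (Lk (dl J) k) ⟨by unfold Lk; linarith,
            sub_le_self _ (by positivity)⟩) (diag_nonneg (lay J k)).2
          have a5 := mul_le_mul_of_nonneg_right (le_of_abs_le (hC' (lay J k) (lay J k)).2) ht.le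
          linarith
        have a3 := nuu_nonneg D x (dl J) k
        refine le_trans (mul_le_mul_of_nonneg_right (mul_le_mul_of_nonneg_left
          (add_le_add (add_le_add le_rfl a2) le_rfl) (by positivity)) a3) (le_of_eq ?_)
        field_simp
        ring
    _ ≤ _ := by
        rw [sum_add_distrib, ← mul_sum, sum_const, nsmul_eq_mul, card_range]
        have := mul_le_mul_of_nonneg_left h1 (show 0 ≤ X * BB D x ^ 4 by positivity)
        push_cast
        linarith

end

theorem coordG {qc : ℝ → ℝ} (hq : Continuous qc)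
    (hc : ∀ t : ℝ, 0 < t → ∀ᶠ η in 𝓝[>] (0 : ℝ), ∀ L ∈ Set.Icc (61 / 1000 : ℝ) (31 / 100),
      cost2 η L ≤ qc L + t) {ε : ℝ} (hε : 0 < ε) :
    ∀ᶠ D : ℕ in atTop, ∀ (g : Fin 3 → ℤ) (a : ℕ), Function.Injective g →
      (∀ j, g j ≠ 0 ∧ 2 * |g j| ≤ D) → Nat.Coprime a (primorial D) → ∀ᶠ x : ℕ in atTop,
      ∑ m ∈ Ioc x (2 * x) with m ≡ a [MOD primorial D],
        (if 4 ≤ ArithmeticFunction.cardFactors m then (1 : ℝ) else 0) *
          SS (qq D x) (og g) (YY D x _) m ^ 2 ≤ x / primorial D * BB D x ^ 4 *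
        (QQ (fun X L => cM X X * nn L + (1 + nM X X - cM X X) * qc L) + ε) := by
  obtain ⟨C, hC, hC'⟩ := exists_C
  set Q := QQ (fun X L => cM X X * nn L + (1 + nM X X - cM X X) * qc L) with hQ
  have hlim : Tendsto (fun t : ℝ => (1 + t) * (Q + (4 + C) * t) + t) (𝓝[>] 0)
      (𝓝 ((1 + 0) * (Q + (4 + C) * 0) + 0)) :=
    tendsto_nhdsWithin_of_tendsto_nhds (Continuous.tendsto (by fun_prop) _)
  obtain ⟨t, h1, ht⟩ := ((hlim.eventually_le_const (show _ < Q + ε by linarith)).and
    self_mem_nhdsWithin).exists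
  have ht : 0 < t := ht
  have h2 : Tendsto (fun J => (1 + 1 / t) * (25 * dl J ^ 2 * 5)) atTop
      (𝓝 ((1 + 1 / t) * (25 * 0 ^ 2 * 5))) :=
    (((dl_tendsto.pow 2).const_mul _).mul_const _).const_mul _
  obtain ⟨J, h2, h3, hJ⟩ := ((h2.eventually_le_const (show _ < t by simpa using ht)).and
    ((riemann_sum (q := fun X L => cM X X * nn L + (1 + nM X X - cM X X) * qc L)
      (fun X => by have := nn_cont; fun_prop) ht).and (eventually_gt_atTop 0))).exists
  set K : ℝ := (310 * J) ^ 2 * C with hK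
  have hK0 : 0 < K := by positivity
  obtain ⟨η, hη0, hη3, hη⟩ := ((hc t ht).and (((eventually_le_nhds
    (show 0 < min (1 / 1000) (t / (K * 912)) by positivity)).filter_mono nhdsWithin_le_nhds).and
    self_mem_nhdsWithin)).exists
  have hη : 0 < η := hη
  have hη1 := hη3.trans (min_le_left _ _)
  have hη2 := (le_div_iff₀ (by positivity)).1 (hη3.trans (min_le_right _ _))
  have h4 := (eD_tendsto.const_mul (5 + 2 / η)).const_mul K
  filter_upwards [h4.eventually_le_const (show _ < t by simpa using ht),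
    eD_tendsto.eventually_le_const one_pos, eventually_ge_atTop 16] with D h4 h5 hD g a hg hg8 ha
  have hr : 0 < t / (1 + 4 * C + 132 * K) := by positivity
  have h6 : t / (1 + 4 * C + 132 * K) * (1 + 4 * C + 132 * K) = t := by field_simp
  set r := t / (1 + 4 * C + 132 * K)
  filter_upwards [net_errG hD hg hg8 hJ (a := a), upperG hD hg hg8 hJ ha hη hη1 hr ht hC hC' hη0]
    with x a1 a2
  have hX : 0 ≤ x / primorial D * BB D x ^ 4 := by have := Meas.BB_nonneg D x; positivity
  have a3 := h3 (C * (t + 4 * r)) (by positivity)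
  have a4 : K * (4 * (57 * η * (3 + eD D))) ≤ K * (4 * (57 * η * 4)) := by gcongr; linarith
  have a5 := a2.trans (mul_le_mul_of_nonneg_left (c := Q + (4 + C) * t) (by rw [← hK]; linarith) hX)
  have a6 := a1.trans (mul_le_mul_of_nonneg_left (c := 25 * dl J ^ 2 * 5)
    (by gcongr; linarith) hX)
  have a7 := add_le_add (mul_le_mul_of_nonneg_left a5 (show 0 ≤ 1 + t by positivity))
    (mul_le_mul_of_nonneg_left a6 (show 0 ≤ 1 + 1 / t by positivity))
  refine le_trans ?_ (a7.trans ?_)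
  · rw [mul_sum, mul_sum, ← sum_add_distrib]
    refine sum_le_sum fun m _ => ?_
    set S := SS (qq D x) (og g) (YY D x _) m
    set Z := ∑ k ∈ range (310 * J), ZZ D x g (dl J) k m
    have b1 : (1 + t) * Z ^ 2 + (1 + 1 / t) * (S - Z) ^ 2 - S ^ 2 = (t * Z - (S - Z)) ^ 2 / t := by
      field_simp; ring
    have b2 : 0 ≤ (t * Z - (S - Z)) ^ 2 / t := by positivity
    split_ifs
    · linarith
    · simp only [zero_mul, mul_zero, zero_add]; positivity
  · rw [mul_left_comm, mul_left_comm (1 + 1 / t), ← mul_add]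
    exact mul_le_mul_of_nonneg_left (by linarith) hX

section
variable {H : Fin 4 → ℕ}

theorem SS_coordG (D x n : ℕ) (i : Fin 4) :
    SS (qq D x) (og (ggG H 0)) (YY D x _) (n + H 0 : ℕ) =
      SS (qq D x) (og (ggG H i)) (YY D x _) (n + H i : ℕ) := by
  have h : ∀ i : Fin 4, SS (qq D x) (og (ggG H i)) (YY D x _) (n + H i : ℕ) =
      SS (qq D x) (fun j => (H j : ℤ)) (YY D x _) n := fun i =>
    SS_equiv (finSuccEquiv' i).symm _ _ _ _ fun j => by cases j <;> simp [og, ggG]
  rw [h, h]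

theorem lowerG {ε : ℝ} (hε : 0 < ε) (G : ℕ) : ∀ᶠ D : ℕ in atTop, ∀ (g : Fin 3 → ℤ) (b : ℕ),
    Function.Injective g → (∀ j, g j ≠ 0 ∧ 2 * |g j| ≤ D) → ∀ᶠ x : ℕ in atTop,
    x / primorial D * BB D x ^ 4 *
      ((∫ s in (0 : ℝ)..1, Pz (31 / 100 - s) ^ 2 * (s ^ 3 / 6)) - 4 * ε) ≤
    ∑ n ∈ Ioc (x + G) (2 * x - G) with n ≡ b [MOD primorial D],
      SS (qq D x) (og g) (YY D x _) n ^ 2 := by
  filter_upwards [eD_tendsto.eventually_le_const hε, eventually_ge_atTop 16] with D h1 hD g b hg hg8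
  have h2 := (conv_nu_pow D (Option (Fin 3)) 3 (by simp)).2.2.2.2 (fun t => fL (31 / 100) t ^ 2)
    ((fL_cont _).pow 2) 1 zero_le_one fun u hu => by rw [fL_zero (by linarith)]; simp
  simp only [zero_mul, zero_add, show ((Nat.factorial 3 : ℕ) : ℝ) = 6 by norm_num [Nat.factorial]]
    at h2
  unfold fL at h2
  set I := ∫ s in (0 : ℝ)..1, Pz (31 / 100 - s) ^ 2 * (s ^ 3 / 6)
  filter_upwards [TIG hD (κ := Option (Fin 3)) (by simp) (og_injG hg hg8).1 (og_injG hg hg8).2
    (j0 := none) rfl b, Meas.L_pos, small_pow D (show (6605 / 10000 : ℝ) < 1 by norm_num) hε,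
    h2.eventually_le_const (lt_add_of_pos_right _ hε),
    h2.eventually_const_le (sub_lt_self _ hε), eventually_ge_atTop (2 * G), Meas.BB_pos D,
    tendsto_natCast_atTop_atTop.eventually_ge_atTop (2 * G * (I + ε) / ε)]
    with x h hl h3 h4 h5 hx hB h6
  have hW : (0 : ℝ) < primorial D := by exact_mod_cast primorial_pos D
  have := (abs_le.1 (h ∅ (x + G) (2 * x - G) (YY D x _) (YY D x _) (by simp) (by omega)
    (fun T => abs_fL _ _) (fun T => abs_fL _ _) (fun T hT => ⟨by simp, YY_supp hl hT⟩)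
    fun T hT => ⟨by simp, YY_supp hl hT⟩)).1
  simp only [notMem_empty, IsEmpty.forall_iff, implies_true, and_true, prod_empty, mul_one,
    Fintype.card_option, Fintype.card_fin, Nat.cast_sub (show G ≤ 2 * x by omega), Nat.cast_add,
    Nat.cast_mul, Nat.cast_ofNat, show (2 : ℝ) * x - G - (x + G) = x - 2 * G by ring, ← sq] at this
  have e : ∑ T, YY D x (Option (Fin 3)) T ^ 2 * wts (qq D x) T = BB D x ^ 4 *
      ∑ T : Option (Fin 3) → Finset (PP D x), wts (qq D x) T / BB D x ^ (3 + 1) *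
        Pz (31 / 100 - lgs (qq D x) T / Real.log x) ^ 2 := by
    rw [mul_sum]
    exact sum_congr rfl fun T _ => by unfold YY fL; field_simp
  rw [e] at this
  set s := ∑ T : Option (Fin 3) → Finset (PP D x),
    wts (qq D x) T / BB D x ^ (3 + 1) * Pz (31 / 100 - lgs (qq D x) T / Real.log x) ^ 2
  rw [div_le_iff₀ hε] at h6
  have hG : (0 : ℝ) ≤ G := Nat.cast_nonneg G
  have h7 : (x : ℝ) * (I - 2 * ε) ≤ (x - 2 * G) * s := by
    nlinarith [mul_le_mul_of_nonneg_left h5 (show (0 : ℝ) ≤ x by positivity),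
      mul_le_mul_of_nonneg_left h4 hG]
  have h8 := mul_le_mul_of_nonneg_right h7 (show 0 ≤ BB D x ^ 4 / primorial D by positivity)
  have h9 : ((x : ℝ) - 2 * G) / primorial D * (eD D * BB D x ^ 4) ≤
      x / primorial D * (ε * BB D x ^ 4) := by
    have := eD_nonneg D
    gcongr; linarith
  have e1 : (x - 2 * G) * s * (BB D x ^ 4 / primorial D) =
      (x - 2 * G) / primorial D * (BB D x ^ 4 * s) := by ring
  have e2 : x * (I - 2 * ε) * (BB D x ^ 4 / primorial D) =
      x / primorial D * BB D x ^ 4 * (I - 2 * ε) := by ring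
  linarith

theorem mainG (hH : Function.Injective H) (hadm : ∀ p : ℕ, p.Prime → ∃ r : ℕ, ∀ i, ¬ p ∣ r + H i) :
    ∀ᶠ x : ℕ in atTop, ∃ n > x, ∀ i, ArithmeticFunction.cardFactors (n + H i) ≤ 3 := by
  obtain ⟨qc, hq, h1, h2⟩ := numerics2
  set I := ∫ s in (0 : ℝ)..1, Pz (31 / 100 - s) ^ 2 * (s ^ 3 / 6)
  set Q := QQ (fun X L => cM X X * nn L + (1 + nM X X - cM X X) * qc L) with hQ
  replace h2 : 4 * Q < I := by
    simp only [hQ, QQ, (diag _).2]
    simp only [(diag _).1]
    simpa using h2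
  have hε : 0 < (I - 4 * Q) / 10 := by linarith
  obtain ⟨G, hG⟩ : ∃ G, ∀ i, H i ≤ G := ⟨univ.sup H, fun i => le_sup (mem_univ i)⟩
  obtain ⟨D, h3, h4, hD⟩ := ((lowerG hε G).and ((coordG hq h1 hε).and
    (eventually_ge_atTop (2 * G)))).exists
  obtain ⟨b, hb⟩ := exists_classG hadm D
  have ok := ggG_ok hH hG hD
  filter_upwards [h3 (ggG H 0) (b + H 0) (ok 0).1 (ok 0).2, eventually_all.2 fun i =>
    h4 (ggG H i) (b + H i) (ok i).1 (ok i).2 (hb i), Meas.BB_pos D, eventually_gt_atTop 0]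
    with x h5 h6 hB hx
  by_contra hcon
  have hW : (0 : ℝ) < primorial D := by exact_mod_cast primorial_pos D
  have hX : 0 < x / primorial D * BB D x ^ 4 := by positivity
  replace h5 := h5.trans (show _ ≤ ∑ n ∈ Ioc x (2 * x - G) with n ≡ b [MOD primorial D],
      SS (qq D x) (og (ggG H 0)) (YY D x _) (n + H 0 : ℕ) ^ 2 by
    refine le_trans (sum_le_sum_of_subset_of_nonneg (fun m hm => ?_) fun _ _ _ => by positivity)
      (sum_image (g := (· + H 0)) (f := fun m : ℕ =>
        SS (qq D x) (og (ggG H 0)) (YY D x _) m ^ 2) (add_left_injective _).injOn).le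
    have := hG 0
    have := mem_Ioc.1 (mem_filter.1 hm).1
    refine mem_image.2 ⟨m - H 0, mem_filter.2 ⟨mem_Ioc.2 ⟨by omega, by omega⟩,
      Nat.ModEq.add_right_cancel' (H 0) ?_⟩, by omega⟩
    rw [Nat.sub_add_cancel (by omega)]
    exact (mem_filter.1 hm).2)
  have h7 : ∑ n ∈ Ioc x (2 * x - G) with n ≡ b [MOD primorial D],
      SS (qq D x) (og (ggG H 0)) (YY D x _) (n + H 0 : ℕ) ^ 2 ≤ ∑ i,
        ∑ n ∈ Ioc x (2 * x - G) with n ≡ b [MOD primorial D],
        (if 4 ≤ ArithmeticFunction.cardFactors (n + H i) then (1 : ℝ) else 0) *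
          SS (qq D x) (og (ggG H 0)) (YY D x _) (n + H 0 : ℕ) ^ 2 := by
    rw [sum_comm]
    refine sum_le_sum fun n hn => ?_
    obtain ⟨i, hi⟩ := not_forall.1 fun h => hcon ⟨n, (mem_Ioc.1 (mem_filter.1 hn).1).1, h⟩
    refine le_trans (le_of_eq ?_) (single_le_sum (fun _ _ => by positivity) (mem_univ i))
    rw [if_pos (by omega), one_mul]
  have h8 := h7.trans (sum_le_sum fun i _ => le_trans (by
    simp only [SS_coordG D x _ i]
    refine (sum_image (g := (· + H i)) (f := fun m : ℕ =>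
      (if 4 ≤ ArithmeticFunction.cardFactors m then (1 : ℝ) else 0) *
        SS (qq D x) (og (ggG H i)) (YY D x _) m ^ 2) (add_left_injective _).injOn).ge.trans
      (sum_le_sum_of_subset_of_nonneg (fun m hm => ?_) fun _ _ _ => by positivity)
    obtain ⟨n, hn, rfl⟩ := mem_image.1 hm
    have := hG i
    have := mem_Ioc.1 (mem_filter.1 hn).1
    exact mem_filter.2 ⟨mem_Ioc.2 ⟨by omega, by omega⟩, (mem_filter.1 hn).2.add_right _⟩) (h6 i))
  rw [sum_const, card_univ, Fintype.card_fin, nsmul_eq_mul] at h8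
  have h9 := h5.trans h8
  rw [mul_left_comm _ (_ * BB D x ^ 4), mul_le_mul_iff_right₀ hX] at h9
  push_cast at h9
  linarith

end

end Pool.Agent.Lib.MP_fc51f7_nt.P3
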